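import Pool.Agent.H69.GAM.Row

/-!
# The skeleton: the step for flat labels

The capped natural label: at the window `v` the position is known up to the natural precisions
`c i + v`, at most `J` digits.
-/

set_option autoImplicit false

namespace Pool.GAM

open Finset Real
open Pool.Agent.H49.Ent Pool.Agent.H32.Dense Pool.STK Pool.KA Pool.K2S Pool.KSAT
open Pool.PC (nfo)
open Pool.NB (dot Fr ch_vol nat_le_two_pow)

variable {m J : ℕ}

theorem mco_sm (c : ℝ) (M : Fin m → Fin m → ℝ) (x : Fin m → ℝ) (i : Fin m) :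
    mco (c • M) x i = c * mco M x i := by
  unfold mco
  rw [Finset.mul_sum]
  refine Finset.sum_congr rfl fun j _ => ?_
  show c * M i j * x j = c * (M i j * x j)
  ring

/-- The precisions of the position: natural, at most `J`. -/
def pc (J v y : ℕ) (c : Fin m → ℕ) (i : Fin m) : ℕ := min (c i + y + v) J

/-- The capped natural label of the window `v`, with `y` more digits. -/
noncomputable def lblc (F : Fam m J) (v y : ℕ) (c : Fin m → ℕ) (M : F.Ω → Fin m → Fin m → ℝ) :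
    F.Ω → ((ℕ × (Fin m → Fin m → ℝ)) × ((Fin m → ℤ) × (Fin m → ℤ))) × F.ζ :=
  F.mlb v (pc J v y c) (fun i => c i + y) M

/-- A frame with a factor which is determined by the frame. -/
structure Cf {Ω : Type} (p : Ω → ℝ) (o : Equiv.Perm (Fin m)) (g M : Ω → Fin m → Fin m → ℝ) :
    Prop where
  fr : ∀ ω, 0 < p ω → Fr o (g ω)
  fac : ∃ f : Ω → ℝ, (∀ ω, 1 ≤ f ω ∧ f ω ≤ 2) ∧ Det p M f ∧ ∀ ω, M ω = f ω • g ω

theorem Cf.det {Ω : Type} {p : Ω → ℝ} {o : Equiv.Perm (Fin m)} {g M : Ω → Fin m → Fin m → ℝ}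
    (h : Cf p o g M) : Det p M g := by
  obtain ⟨f, h1, h2, h3⟩ := h.fac
  intro ω ω' a b e
  have e1 := h2 ω ω' a b e
  rw [h3, h3, e1] at e
  have hf : f ω' ≠ 0 := by linarith [(h1 ω').1]
  exact smul_right_injective _ hf e

/-! ### Capped precisions -/

theorem floor_anti {a a' : ℕ} (h : a ≤ a') {x y : ℝ}
    (e : ⌊(2 : ℝ) ^ a' * x⌋ = ⌊(2 : ℝ) ^ a' * y⌋) : ⌊(2 : ℝ) ^ a * x⌋ = ⌊(2 : ℝ) ^ a * y⌋ := by
  have key : ∀ z : ℝ, ⌊(2 : ℝ) ^ a * z⌋ = ⌊(2 : ℝ) ^ a' * z⌋ / ((2 ^ (a' - a) : ℕ) : ℤ) := by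
    intro z
    rw [← Int.floor_div_natCast]
    congr 1
    have hp : (0 : ℝ) < 2 ^ (a' - a) := by positivity
    push_cast
    rw [eq_div_iff hp.ne', mul_right_comm, ← pow_add, Nat.add_sub_cancel' h]
  rw [key x, key y, e]

theorem pc_mono {v y y' : ℕ} (h : y ≤ y') (c : Fin m → ℕ) (i : Fin m) :
    pc J v y c i ≤ pc J v y' c i := by
  unfold pc
  omega

/-- **Boxes with capped precisions.** -/
theorem cap_incl {o o' : Equiv.Perm (Fin m)} {g g' : Fin m → Fin m → ℝ} (hg : Fr o g)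
    (hg' : Fr o' g') {c c' : Fin m → ℕ} {n : ℕ}
    (h : ∀ v : Fin m → ℝ, (∀ i, |dot (g i) v| ≤ 1 / 2 ^ c i) →
      ∀ i, |dot (g' i) v| ≤ 2 ^ n / 2 ^ c' i) (a J : ℕ) (v : Fin m → ℝ)
    (hv : ∀ i, |dot (g i) v| ≤ 1 / 2 ^ min (c i + a) J) (i : Fin m) :
    |dot (g' i) v| ≤ 2 ^ (n + 2 * m + 1) / 2 ^ min (c' i + a) J := by
  have hm2 := nat_le_two_pow m
  -- the split
  obtain ⟨v₁, hv₁⟩ := hg.vecs c fun i => if c i + a ≤ J then 2 ^ c i * dot (g i) v else 0
  have h1 : ∀ i, dot (g i) v₁ = if c i + a ≤ J then dot (g i) v else 0 := by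
    intro i
    have h2 := hv₁ i
    have h3 : (2 : ℝ) ^ c i ≠ 0 := by positivity
    split_ifs at h2 ⊢ with h4
    · exact mul_left_cancel₀ h3 h2
    · rcases mul_eq_zero.1 h2 with h5 | h5
      · exact absurd h5 h3
      · exact h5
  -- the first part
  have h2 : |dot (g' i) v₁| ≤ 2 ^ n / 2 ^ (c' i + a) := by
    have h3 := h (fun l => 2 ^ a * v₁ l) (fun j => by
      have e1 : dot (g j) (fun l => 2 ^ a * v₁ l) = 2 ^ a * dot (g j) v₁ := by
        unfold dot
        rw [Finset.mul_sum]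
        exact Finset.sum_congr rfl fun l _ => by ring
      rw [e1, abs_mul, abs_of_pos (by positivity), h1 j]
      split_ifs with h4
      · have h5 := hv j
        rw [min_eq_left h4, pow_add, le_div_iff₀ (by positivity)] at h5
        rw [le_div_iff₀ (by positivity)]
        calc 2 ^ a * |dot (g j) v| * 2 ^ c j = |dot (g j) v| * (2 ^ c j * 2 ^ a) := by ring
          _ ≤ 1 := h5
      · rw [abs_zero, mul_zero]
        positivity) i
    have e1 : dot (g' i) (fun l => 2 ^ a * v₁ l) = 2 ^ a * dot (g' i) v₁ := by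
      unfold dot
      rw [Finset.mul_sum]
      exact Finset.sum_congr rfl fun l _ => by ring
    rw [e1, abs_mul, abs_of_pos (by positivity), le_div_iff₀ (by positivity)] at h3
    rw [le_div_iff₀ (by positivity), pow_add]
    calc |dot (g' i) v₁| * (2 ^ c' i * 2 ^ a) = 2 ^ a * |dot (g' i) v₁| * 2 ^ c' i := by ring
      _ ≤ 2 ^ n := h3
  -- the second part
  have h3 : |dot (g' i) (fun l => v l - v₁ l)| ≤ 2 ^ (2 * m) / 2 ^ J := by
    have h4 : ∀ l, |v l - v₁ l| ≤ 2 ^ m * (1 / 2 ^ J) := fun l =>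
      hg.coord (v := fun l => v l - v₁ l) (by positivity) (fun j => by
        rw [Pool.NB.dot_sub, h1 j]
        split_ifs with h5
        · rw [sub_self, abs_zero]
          positivity
        · rw [sub_zero]
          have h6 := hv j
          rw [min_eq_right (by omega)] at h6
          exact h6) l
    unfold dot
    refine (Finset.abs_sum_le_sum_abs _ _).trans ?_
    have h5 : ∀ l ∈ (univ : Finset (Fin m)), |g' i l * (v l - v₁ l)| ≤ 2 ^ m * (1 / 2 ^ J) := by
      intro l _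
      rw [abs_mul]
      have h6 := mul_le_mul (hg'.bd i l) (h4 l) (abs_nonneg _) zero_le_one
      linarith
    refine (Finset.sum_le_card_nsmul _ _ _ h5).trans ?_
    rw [card_univ, Fintype.card_fin, nsmul_eq_mul]
    have e2 : (2 : ℝ) ^ (2 * m) / 2 ^ J = 2 ^ m * (2 ^ m * (1 / 2 ^ J)) := by
      rw [two_mul, pow_add]
      ring
    rw [e2]
    exact mul_le_mul_of_nonneg_right hm2 (by positivity)
  -- the sum
  have e3 : dot (g' i) v = dot (g' i) v₁ + dot (g' i) (fun l => v l - v₁ l) := by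
    rw [Pool.NB.dot_sub]
    ring
  rw [e3]
  refine (abs_add_le _ _).trans ?_
  have k1 : (2 : ℝ) ^ n / 2 ^ (c' i + a) ≤ 2 ^ (n + 2 * m) / 2 ^ min (c' i + a) J := by
    refine div_le_div₀ (by positivity) (pow_le_pow_right₀ (by norm_num) (by omega)) (by positivity)
      (pow_le_pow_right₀ (by norm_num) (min_le_left _ _))
  have k2 : (2 : ℝ) ^ (2 * m) / 2 ^ J ≤ 2 ^ (n + 2 * m) / 2 ^ min (c' i + a) J := by
    refine div_le_div₀ (by positivity) (pow_le_pow_right₀ (by norm_num) (by omega)) (by positivity)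
      (pow_le_pow_right₀ (by norm_num) (min_le_right _ _))
  have e4 : (2 : ℝ) ^ (n + 2 * m + 1) / 2 ^ min (c' i + a) J =
      2 ^ (n + 2 * m) / 2 ^ min (c' i + a) J + 2 ^ (n + 2 * m) / 2 ^ min (c' i + a) J := by
    rw [pow_succ]
    ring
  rw [e4]
  linarith

/-! ### The cells of the position at a later time -/

section lab

variable {F : Fam m J}

/-- Lines with the same label, at a later time. -/
theorem nr_later {v R : ℕ} (hvR : v ≤ R) (hR : R ≤ J) {k c : Fin m → ℕ}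
    (hkc : ∀ i, k i ≤ c i + v) {M : F.Ω → Fin m → Fin m → ℝ} {ω ω' : F.Ω}
    (h : F.mlb v k c M ω = F.mlb v k c M ω') (hT : F.T1 R ω = F.T1 R ω') (i : Fin m) :
    |mco (M ω) (fun l => F.x1 R ω l - F.x1 R ω' l) i| ≤ 2 / 2 ^ k i := by
  have n := Box.nr_of_mlb h
  have hs := Lab.time_near F (hvR.trans hR) hR (min_eq_left hvR).symm ω
  have n2 := n.time (s' := (F.T1 R ω : ℝ) / 2 ^ R) zero_le_one hs (fun i => le_rfl) hkc
  have h1 := n2.1 i
  rw [← Box.mco_sub] at h1
  have e1 : F.xa ((F.T1 R ω : ℝ) / 2 ^ R) ω = F.x1 R ω := rfl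
  have e2 : F.xa ((F.T1 R ω : ℝ) / 2 ^ R) ω' = F.x1 R ω' := by rw [hT]; rfl
  rw [e1, e2] at h1
  exact h1.trans (le_of_eq (by ring))

/-- The cell of the position at a later time, given the label. -/
theorem ch_later {p : F.Ω → ℝ} (hp : IsLaw p) {v R : ℕ} (hvR : v ≤ R) (hR : R ≤ J)
    {k c : Fin m → ℕ} (hkc : ∀ i, k i ≤ c i + v) (M : F.Ω → Fin m → Fin m → ℝ) :
    CH p (F.mps R k M) (fun ω => (F.mlb v k c M ω, F.T1 R ω)) ≤ m * (3 * Real.log 2) := by
  have h1 := Lab.CH_fin_const hp (F.mps R k M) (fun ω => (F.mlb v k c M ω, F.T1 R ω))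
    (c := 2 + 1) (fun ω ω' _ _ h i => by
      have h2 := Prod.ext_iff.mp h
      have h3 := nr_later hvR hR hkc h2.1 h2.2 i
      rw [Box.mco_sub] at h3
      have h4 := Box.floor_near h3
      unfold Fam.mps flk
      rw [← (Box.mlb_ext h2.1).2.1]
      exact h4)
  refine h1.trans (mul_le_mul_of_nonneg_left ?_ (Nat.cast_nonneg m))
  rw [show (3 : ℝ) * Real.log 2 = Real.log (2 ^ 3) by rw [Real.log_pow]; norm_num]
  exact Real.log_le_log (by norm_num) (by norm_num)

end lab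

/-- Labels of closed frames are closed. -/
theorem det_mlb {F : Fam m J} {p : F.Ω → ℝ} {v : ℕ} {k c : Fin m → ℕ}
    {M : F.Ω → Fin m → Fin m → ℝ} (hM : Det p (slam F v) M) :
    Det p (slam F v) (F.mlb v k c M) := by
  intro ω ω' hω hω' h
  have hz := hM ω ω' hω hω' h
  unfold slam at h
  simp only [Prod.mk.injEq] at h
  obtain ⟨h1, h2, h3⟩ := h
  have hu : F.u ω = F.u ω' := (Prod.ext_iff.mp h1).1
  have hd : F.d ω = F.d ω' := (Prod.ext_iff.mp h1).2
  have hx : F.x1 v ω = F.x1 v ω' := by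
    funext i
    unfold Fam.x1
    rw [hu, hd, h3]
  refine Box.mlb_mk h3 hz ?_ ?_ h2
  · unfold Fam.mps
    rw [hz, hx]
  · unfold Fam.mvl
    rw [hz, hd]

/-- More digits. -/
theorem det_lblc {F : Fam m J} {p : F.Ω → ℝ} {v y y' : ℕ} (hy : y ≤ y') {c : Fin m → ℕ}
    {M : F.Ω → Fin m → Fin m → ℝ} : Det p (lblc F v y' c M) (lblc F v y c M) := by
  intro ω ω' _ _ h
  obtain ⟨h1, h2, h3, h4, h5⟩ := Box.mlb_ext h
  refine Box.mlb_mk h1 h2 ?_ ?_ h5
  · funext i
    exact floor_anti (pc_mono hy c i) (congrFun h3 i)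
  · funext i
    exact floor_anti (a := c i + y) (a' := c i + y') (by omega) (congrFun h4 i)

/-! ### The step -/

/-- **The step for flat labels.** From the window `w` to the window `w'`; the contexts are the
labels of the window `w` with `q + j X` digits, `j < N`; the second box is contained in the first
one, and contains the first one with `D` more digits, up to `n` digits. -/
theorem row_flat {F : Fam m J} {w w' R : ℕ} (hw : w ≤ w') (hw' : w' ≤ R) (hR : R ≤ J)
    {o o' : Equiv.Perm (Fin m)} {g M g' M' : F.Ω → Fin m → Fin m → ℝ} (hM : Cf F.p o g M)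
    (hM' : Cf F.p o' g' M') (hcl : Det F.p (slam F w) M) (hMM : Det F.p M' M)
    {c c' : Fin m → ℕ} {n D : ℕ}
    (hout : ∀ ω, 0 < F.p ω → ∀ v : Fin m → ℝ, (∀ i, |dot (g ω i) v| ≤ 1 / 2 ^ (c i + D)) →
      ∀ i, |dot (g' ω i) v| ≤ 2 ^ n / 2 ^ c' i)
    (q X N : ℕ) (hN : (w' - w) + D ≤ N * X) {κ : ℝ}
    (hfull : ∀ j < N, ((∑ i, pc J w (q + (j + 1) * X) c i : ℕ) -
      (∑ i, pc J w (q + j * X) c i : ℕ) : ℝ) * Real.log 2 - κ ≤
      CH F.p (F.mps R (pc J w (q + (j + 1) * X) c) M)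
        (fun ω => (lblc F w (q + j * X) c M ω, F.T1 R ω))) :
    nfo F w (lblc F w q c M) + ((∑ i, pc J w' q c' i : ℕ) - (∑ i, pc J w q c i : ℕ) : ℝ) *
        Real.log 2 - N * (κ + m * (3 * Real.log 2)) -
        m * ((n + 6 * m + 9 : ℕ) * Real.log 2) ≤ nfo F w' (lblc F w' q c' M') +
        CH F.p (lblc F w q c M) (lblc F w' q c' M') := by
  have hp := F.isLaw
  have h0 := hp.nonneg
  -- the chain
  have hch := row_chain h0 (fun j => lblc F w (q + j * X) c M)
    (fun j => F.mps R (pc J w (q + j * X) c) M) (F.T1 R)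
    (fun j => ((∑ i, pc J w (q + (j + 1) * X) c i : ℕ) -
      (∑ i, pc J w (q + j * X) c i : ℕ) : ℝ) * Real.log 2 - κ) (C := m * (3 * Real.log 2)) N
    (fun j _ => det_lblc (by rw [Nat.zero_mul]; omega))
    (fun j _ ω ω' _ _ h => by
      have h1 := Prod.ext_iff.mp h
      have h2 := (Box.mlb_ext (Prod.ext_iff.mp h1.2).1).2.1
      funext i
      have h3 := congrFun h1.1 i
      have h4 : pc J w (q + j * X) c i ≤ pc J w (q + (j + 1) * X) c i :=
        pc_mono (by rw [Nat.succ_mul]; omega) c i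
      exact floor_anti h4 h3)
    (fun j _ => ch_later hp (hw.trans hw') hR (fun i => min_le_left _ _) M)
    hfull
  simp only [Nat.zero_mul, Nat.add_zero] at hch
  have hsum : ∑ j ∈ range N, (((∑ i, pc J w (q + (j + 1) * X) c i : ℕ) -
      (∑ i, pc J w (q + j * X) c i : ℕ) : ℝ) * Real.log 2 - κ) =
      ((∑ i, pc J w (q + N * X) c i : ℕ) - (∑ i, pc J w q c i : ℕ) : ℝ) * Real.log 2 - N * κ := by
    rw [Finset.sum_sub_distrib, ← Finset.sum_mul,
      Finset.sum_range_sub (fun j => ((∑ i, pc J w (q + j * X) c i : ℕ) : ℝ)), Finset.sum_const,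
      card_range, nsmul_eq_mul, Nat.zero_mul, Nat.add_zero]
  rw [hsum] at hch
  -- the count
  obtain ⟨f, hf1, hf2, hf3⟩ := hM.fac
  obtain ⟨f', hf'1, hf'2, hf'3⟩ := hM'.fac
  obtain ⟨W, hW⟩ : ∃ W : F.Ω → (((ℕ × (Fin m → Fin m → ℝ)) × ((Fin m → ℤ) × (Fin m → ℤ))) ×
      F.ζ) × ℕ, W = fun ω => (lblc F w' q c' M' ω, F.T1 R ω) := ⟨_, rfl⟩
  have hWM' : Det F.p W M' := fun ω ω' _ _ h => by
    rw [hW] at h
    exact (Box.mlb_ext (Prod.ext_iff.mp h).1).2.1
  have hWM : Det F.p W M := fun ω ω' a b h => hMM ω ω' a b (hWM' ω ω' a b h)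
  have hvol := ch_vol hp (W := W) (κ := pc J w' q c') (κ' := pc J w (q + N * X) c) (g := g')
    (g' := g) hM'.fr hM.fr (fun ω ω' a b h => hM'.det ω ω' a b (hWM' ω ω' a b h))
    (fun ω ω' a b h => hM.det ω ω' a b (hWM ω ω' a b h))
    (x := fun ω l => f ω * F.x1 R ω l) (n := 2) (c := n + 2 * m + 1)
    (fun ω ω' a b h i => by
      have e1 : f ω = f ω' := hf2 ω ω' a b (hWM ω ω' a b h)
      have h1 : lblc F w' q c' M' ω = lblc F w' q c' M' ω' ∧ F.T1 R ω = F.T1 R ω' := by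
        rw [hW] at h
        exact Prod.ext_iff.mp h
      have h2 := nr_later (k := pc J w' q c') hw' hR (fun i => min_le_left _ _) h1.1 h1.2 i
      have e2 : dot (g' ω i) (fun l => f ω * F.x1 R ω l - f ω' * F.x1 R ω' l) =
          f ω * mco (g' ω) (fun l => F.x1 R ω l - F.x1 R ω' l) i := by
        rw [← e1]
        unfold dot mco
        rw [Finset.mul_sum]
        exact Finset.sum_congr rfl fun l _ => by ring
      rw [hf'3, mco_sm, abs_mul, abs_of_nonneg (by linarith [(hf'1 ω).1])] at h2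
      have h3 : |mco (g' ω) (fun l => F.x1 R ω l - F.x1 R ω' l) i| ≤ 2 / 2 ^ pc J w' q c' i := by
        refine le_trans ?_ h2
        have := mul_le_mul_of_nonneg_right (hf'1 ω).1
          (abs_nonneg (mco (g' ω) (fun l => F.x1 R ω l - F.x1 R ω' l) i))
        linarith
      rw [e2, abs_mul, abs_of_nonneg (by linarith [(hf1 ω).1])]
      have h4 := mul_le_mul (hf1 ω).2 h3 (abs_nonneg _) (by norm_num)
      refine h4.trans (le_of_eq ?_)
      ring)
    (fun ω hω v hv i => by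
      have h1 := cap_incl (hM.fr ω hω) (hM'.fr ω hω) (c := fun i => c i + D) (hout ω hω)
        (q + w') J v (fun i => by
          refine (hv i).trans ?_
          refine one_div_le_one_div_of_le (by positivity) (pow_le_pow_right₀ (by norm_num) ?_)
          show min (c i + D + (q + w')) J ≤ min (c i + (q + N * X) + w) J
          have : w' ≤ w + (w' - w) := by omega
          omega) i
      refine h1.trans (le_of_eq ?_)
      show _ / (2 : ℝ) ^ min (c' i + (q + w')) J = _ / 2 ^ min (c' i + q + w') J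
      rw [← add_assoc])
  have hξ : (fun ω i => ⌊(2 : ℝ) ^ pc J w (q + N * X) c i *
      dot (g ω i) (fun l => f ω * F.x1 R ω l)⌋) = F.mps R (pc J w (q + N * X) c) M := by
    funext ω i
    unfold Fam.mps flk
    congr 2
    rw [hf3, mco_sm]
    unfold dot mco
    rw [Finset.mul_sum]
    exact Finset.sum_congr rfl fun l _ => by ring
  rw [hξ, hW] at hvol
  -- the step
  have hst := step_row F hw (hw'.trans hR) (lblc F w q c M) (lblc F w' q c' M')
    (F.mps R (pc J w (q + N * X) c) M) (F.T1 R) (det_mlb hcl)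
    (fun ω ω' _ _ h => (Box.mlb_ext h).2.2.2.2) (fun ω ω' _ _ h => (Box.mlb_ext h).1)
    (fun ω ω' _ _ h => Pool.NB.T1_mono F hw' hR h)
  have e3 : 2 + (n + 2 * m + 1) + 4 * m + 6 = n + 6 * m + 9 := by ring
  rw [e3] at hvol
  have e4 : ((∑ i, pc J w' q c' i : ℕ) - (∑ i, pc J w q c i : ℕ) : ℝ) * Real.log 2 =
      ((∑ i, pc J w (q + N * X) c i : ℕ) - (∑ i, pc J w q c i : ℕ) : ℝ) * Real.log 2 -
      ((∑ i, pc J w (q + N * X) c i : ℕ) - (∑ i, pc J w' q c' i : ℕ) : ℝ) * Real.log 2 := by ring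
  rw [e4]
  linarith

end Pool.GAM
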