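import Pool.Agent.H69.GAM.Skel
import Pool.Agent.H69.NB.XfC

/-!
# The skeleton for good families
-/

set_option autoImplicit false

namespace Pool.GAM

open Finset Real
open Pool.Agent.H49.Ent Pool.Agent.H32.Dense Pool.STK Pool.KA Pool.K2S Pool.KSAT Pool.PB
open Pool.PC (nfo On Cnt DetA pt)
open Pool.NB
open Pool.LK (Lbl)

variable {m J : ℕ}

/-! ### Histories -/

/-- The frames of all windows of `W` up to `w`. -/
noncomputable def hist {F : Fam m J} (W : Finset ℚ) (z : ℚ → Bx F) (w : ℚ) (ω : F.Ω) (v : ℚ) :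
    Fin m → Fin m → ℝ :=
  if v ∈ W ∧ v ≤ w then (z v).g ω else 0

section hist

variable {F : Fam m J} {A : F.Ω → Prop} {W : Finset ℚ} {z : ℚ → Bx F}

theorem hist_g {w : ℚ} (hw : w ∈ W) : DetA F A (hist W z w) (z w).g := by
  intro ω ω' _ _ h
  have h1 := congrFun h w
  unfold hist at h1
  rw [if_pos ⟨hw, le_rfl⟩, if_pos ⟨hw, le_rfl⟩] at h1
  exact h1

theorem hist_mono {w w' : ℚ} (hww : w ≤ w') : DetA F A (hist W z w') (hist W z w) := by
  intro ω ω' _ _ h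
  funext v
  have h1 := congrFun h v
  unfold hist at h1 ⊢
  by_cases h2 : v ∈ W ∧ v ≤ w
  · rw [if_pos ⟨h2.1, h2.2.trans hww⟩, if_pos ⟨h2.1, h2.2.trans hww⟩] at h1
    rw [if_pos h2, if_pos h2]
    exact h1
  · rw [if_neg h2, if_neg h2]

theorem hist_of {α : Type} {P : F.Ω → α} {w : ℚ}
    (h : ∀ v ∈ W, v ≤ w → DetA F A P (z v).g) : DetA F A P (hist W z w) := by
  intro ω ω' a b e
  funext v
  unfold hist
  by_cases h2 : v ∈ W ∧ v ≤ w
  · rw [if_pos h2, if_pos h2]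
    exact h v h2.1 h2.2 ω ω' a b e
  · rw [if_neg h2, if_neg h2]

end hist

theorem slam_mono {F : Fam m J} {v v' : ℕ} (hvv : v ≤ v') (hv' : v' ≤ J) {ω ω' : F.Ω}
    (h : slam F v' ω = slam F v' ω') : slam F v ω = slam F v ω' := by
  unfold slam at h ⊢
  simp only [Prod.mk.injEq] at h ⊢
  exact ⟨h.1, h.2.1, T1_mono F hvv hv' h.2.2⟩

theorem win_mono (J : ℕ) {w w' : ℚ} (h : w ≤ w') : Pool.NB.win J w ≤ Pool.NB.win J w' := by
  unfold Pool.NB.win
  refine Nat.floor_le_floor ?_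
  have h1 : ((w : ℚ) : ℝ) ≤ (w' : ℚ) := Rat.cast_le.2 h
  exact mul_le_mul_of_nonneg_right h1 (Nat.cast_nonneg J)

theorem win_le (J : ℕ) {w : ℚ} (h : w ≤ 1) : Pool.NB.win J w ≤ J := by
  have h1 := win_mono J h
  refine h1.trans (le_of_eq ?_)
  unfold Pool.NB.win
  rw [Rat.cast_one, one_mul, Nat.floor_natCast]

/-- Frames with codes, in the form of the skeleton. -/
theorem _root_.Pool.NB.Cfr.cf {F : Fam m J} {A : F.Ω → Prop} {α : Type} {K : F.Ω → α} {z : Bx F}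
    (hz : z.Ok A) {M : F.Ω → Fin m → Fin m → ℝ} (h : Cfr F A K z.g M) :
    Cf (Pool.Agent.H49.Ent.cond F.p A True) z.o z.g M := by
  obtain ⟨f, h1, h2, h3⟩ := h.fac
  exact ⟨fun ω hω => hz.fr ω (on_iff.1 hω), f, h1,
    fun ω ω' a b e => h2 ω ω' (h.inv ω ω' (on_iff.1 a) (on_iff.1 b) e), h3⟩

section good

variable {M : ℕ} {Λ' : Lbs m M} {δ γ : ℝ} {s s₂ : ℕ → ℝ} {W : Finset ℚ} {h ψ : ℝ} {F : Fam m J}
  {A : F.Ω → Prop} {e : ℕ} {B : ℕ → Bx F} {N : ℕ → ℝ} {z : Bool → ℕ → ℚ → Bx F} {u : Λ'.T F}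

/-- The second box contains the first one with as many more digits as the largest fall. -/
theorem good_out (G : Good (M := M) δ γ s s₂ W h ψ F A e B N z u) {b : Bool} {k : ℕ}
    (hk : k < M) {w w' : ℚ} (hw : w ∈ W) (hw' : w' ∈ W) {D : ℕ}
    (hD : ∀ i : Fin m, nf s₂ b k w w' i * J ≤ D) {ω : F.Ω} (hω : On F A ω) (v : Fin m → ℝ)
    (hv : ∀ i, |dot ((z b k w).g ω i) v| ≤ 1 / 2 ^ ((z b k w).q i + D)) (i : Fin m) :
    |dot ((z b k w').g ω i) v| ≤ 2 ^ (⌈h * J⌉₊ + 2 * m) / 2 ^ (z b k w').q i := by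
  have hr := (z b k w).rel (G.ok b k hk w) (G.ok b k hk w') hω
  have hm2 := nat_le_two_pow m
  have hmr : (0 : ℝ) ≤ m := Nat.cast_nonneg m
  have hσ : ∀ i, (z b k w).fs (z b k w') ω i ≤ 2 ^ D * 2 ^ ⌈h * J⌉₊ := by
    intro i
    refine logb_le_pow (hr.pos i) ?_
    have h1 := abs_le.1 (G.fal b k hk w hw w' hw' i ω hω)
    have h2 := Nat.le_ceil (h * (J : ℝ))
    linarith [h1.2, hD i]
  have h1 := hr.out v (m * 2 ^ ⌈h * J⌉₊) (by positivity) (fun i => by
    have h2 : |∑ j, (z b k w).fA (z b k w') ω i j * (2 ^ (z b k w).q j *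
        dot ((z b k w).g ω j) v)| ≤ m * (1 / 2 ^ D) := by
      refine (Finset.abs_sum_le_sum_abs _ _).trans ?_
      have h3 : ∀ j ∈ (univ : Finset (Fin m)), |(z b k w).fA (z b k w') ω i j *
          (2 ^ (z b k w).q j * dot ((z b k w).g ω j) v)| ≤ 1 / 2 ^ D := by
        intro j _
        have h4 := hv j
        rw [pow_add, ← div_div, le_div_iff₀ (by positivity)] at h4
        rw [abs_mul, abs_mul, abs_of_pos (show (0 : ℝ) < 2 ^ (z b k w).q j by positivity)]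
        have h5 : 2 ^ (z b k w).q j * |dot ((z b k w).g ω j) v| ≤ 1 / 2 ^ D := by
          rw [le_div_iff₀ (by positivity)]
          rw [le_div_iff₀ (by positivity)] at h4
          linarith
        have h6 := mul_le_mul (hr.bd i j) h5 (by positivity) zero_le_one
        linarith
      refine (Finset.sum_le_card_nsmul _ _ _ h3).trans ?_
      rw [card_univ, Fintype.card_fin, nsmul_eq_mul]
    have h3 := mul_le_mul (hσ i) h2 (abs_nonneg _) (by positivity)
    refine h3.trans (le_of_eq ?_)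
    field_simp) i
  rw [le_div_iff₀ (by positivity)]
  calc |dot ((z b k w').g ω i) v| * 2 ^ (z b k w').q i =
      2 ^ (z b k w').q i * |dot ((z b k w').g ω i) v| := mul_comm _ _
    _ ≤ m * (m * 2 ^ ⌈h * J⌉₊) := h1
    _ ≤ 2 ^ m * (2 ^ m * 2 ^ ⌈h * J⌉₊) := by
        refine mul_le_mul hm2 (mul_le_mul_of_nonneg_right hm2 (by positivity)) (by positivity)
          (by positivity)
    _ = 2 ^ (⌈h * J⌉₊ + 2 * m) := by
        rw [pow_add, two_mul, pow_add]
        ring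

/-- **The step of the skeleton, at a window of a good family**, from the fullness of the rows. -/
theorem good_row (G : Good (M := M) δ γ s s₂ W h ψ F A e B N z u)
    (hp : IsLaw (Pool.Agent.H49.Ent.cond F.p A True)) {b : Bool} {k : ℕ}
    (hk : k < M) {w w' : ℚ} (hw : w ∈ W) (hw' : w' ∈ W) (hww : w ≤ w')
    {α₀ α₁ : Type} {K₀ : F.Ω → α₀} {K₁ : F.Ω → α₁} {M₀ M₁ : F.Ω → Fin m → Fin m → ℝ}
    (c₀ : Cfr F A K₀ (z b k w).g M₀) (c₁ : Cfr F A K₁ (z b k w').g M₁) (hK : DetA F A K₁ K₀)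
    (hcl₀ : DetA F A (slam F (Pool.NB.win J w)) K₀) {R : ℕ} (hR : Pool.NB.win J w' ≤ R)
    (hRJ : R ≤ J) (q X n D : ℕ) (hD : ∀ i : Fin m, nf s₂ b k w w' i * J ≤ D)
    (hn : (Pool.NB.win J w' - Pool.NB.win J w) + D ≤ n * X) {κ : ℝ}
    (hfull : ∀ j < n, ((∑ i, pc J (Pool.NB.win J w) (q + (j + 1) * X) (z b k w).q i : ℕ) -
      (∑ i, pc J (Pool.NB.win J w) (q + j * X) (z b k w).q i : ℕ) : ℝ) * Real.log 2 - κ ≤
      CH (Pool.Agent.H49.Ent.cond F.p A True)
        (F.mps R (pc J (Pool.NB.win J w) (q + (j + 1) * X) (z b k w).q) M₀)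
        (fun ω => (lblc F (Pool.NB.win J w) (q + j * X) (z b k w).q M₀ ω, F.T1 R ω))) :
    nfo (F.res A True hp) (Pool.NB.win J w)
        (lblc (F.res A True hp) (Pool.NB.win J w) q (z b k w).q M₀) +
      ((∑ i, pc J (Pool.NB.win J w') q (z b k w').q i : ℕ) -
        (∑ i, pc J (Pool.NB.win J w) q (z b k w).q i : ℕ) : ℝ) * Real.log 2 -
      (n * (κ + m * (3 * Real.log 2)) +
        m * ((3 * ⌈h * J⌉₊ + 12 * m + 19 : ℕ) * Real.log 2)) ≤
      nfo (F.res A True hp) (Pool.NB.win J w')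
        (lblc (F.res A True hp) (Pool.NB.win J w') q (z b k w').q M₁) := by
  have hz := G.ok b k hk w
  have hz' := G.ok b k hk w'
  have hwv : Pool.NB.win J w ≤ Pool.NB.win J w' := win_mono J hww
  have hMM : DetA F A M₁ M₀ := fun ω ω' a b e =>
    c₀.det ω ω' a b (hK ω ω' a b (c₁.inv ω ω' a b e))
  have hcl : DetA F A (slam F (Pool.NB.win J w)) M₀ := fun ω ω' a b e =>
    c₀.det ω ω' a b (hcl₀ ω ω' a b e)
  have h1 := row_flat (F := F.res A True hp) hwv hR hRJ (g := (z b k w).g) (g' := (z b k w').g)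
    (c₀.cf hz) (c₁.cf hz') (det_iff.2 hcl) (det_iff.2 hMM) (c := (z b k w).q)
    (c' := (z b k w').q) (n := ⌈h * J⌉₊ + 2 * m) (D := D)
    (fun ω hω v hv i => good_out G hk hw hw' hD (on_iff.1 hω) v hv i) q X n hn hfull
  have h2 := lab_nest (F := F) hp hwv (hR.trans hRJ) (c₀.cf hz) (c₁.cf hz') (det_iff.2 hMM)
    (c := (z b k w).q) (c' := (z b k w').q) (n := ⌊h * J⌋₊)
    (fun ω hω v hv i => G.win b k hk w hw w' hw' hww ω (on_iff.1 hω) v hv i) q
  have h3 : ((⌊h * J⌋₊ + 2 * m + 5 : ℕ) : ℝ) ≤ (⌈h * J⌉₊ + 2 * m + 5 : ℕ) := by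
    exact_mod_cast (by have := Nat.floor_le_ceil (h * (J : ℝ)); omega)
  have hlog : 0 < Real.log 2 := Real.log_pos (by norm_num)
  have hm0 : (0 : ℝ) ≤ m := Nat.cast_nonneg m
  have h4 : 2 * (m * ((⌊h * J⌋₊ + 2 * m + 5 : ℕ) * Real.log 2)) ≤
      2 * (m * ((⌈h * J⌉₊ + 2 * m + 5 : ℕ) * Real.log 2)) := by
    refine mul_le_mul_of_nonneg_left ?_ (by norm_num)
    exact mul_le_mul_of_nonneg_left (mul_le_mul_of_nonneg_right h3 hlog.le) hm0
  have e1 : (m : ℝ) * ((3 * ⌈h * J⌉₊ + 12 * m + 19 : ℕ) * Real.log 2) =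
      m * ((⌈h * J⌉₊ + 2 * m + 6 * m + 9 : ℕ) * Real.log 2) +
      2 * (m * ((⌈h * J⌉₊ + 2 * m + 5 : ℕ) * Real.log 2)) := by
    push_cast
    ring
  rw [e1]
  have h5 : CH (F.res A True hp).p (lblc (F.res A True hp) (Pool.NB.win J w) q (z b k w).q M₀)
      (lblc (F.res A True hp) (Pool.NB.win J w') q (z b k w').q M₁) ≤
      2 * (m * ((⌈h * J⌉₊ + 2 * m + 5 : ℕ) * Real.log 2)) := h2.trans h4
  linarith

/-- The entropy of a variable with few values. -/
theorem ch_of_cnt {α β : Type} {P : F.Ω → α} {o : F.Ω → β} {L : ℝ}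
    (hp : IsLaw (Pool.Agent.H49.Ent.cond F.p A True)) (h : Cnt F A P o (Real.exp L)) :
    CH (Pool.Agent.H49.Ent.cond F.p A True) o P ≤ L := by
  classical
  have h0 := hp.nonneg
  refine (CH_le_card h0 hp.sum_one o P
    (fun a => (univ.filter fun ω => On F A ω ∧ P ω = a).image o) (fun ω hω => ?_)).trans ?_
  · exact Finset.mem_image.2 ⟨ω, Finset.mem_filter.2 ⟨mem_univ _, on_iff.1 hω, rfl⟩, rfl⟩
  · have h1 : Ex (Pool.Agent.H49.Ent.cond F.p A True) (fun ω => Real.log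
        (((univ.filter fun ω' => On F A ω' ∧ P ω' = P ω).image o).card : ℝ)) ≤
        Ex (Pool.Agent.H49.Ent.cond F.p A True) (fun _ => L) := by
      refine Ex_mono h0 fun ω hω => ?_
      have h2 := h ω (on_iff.1 hω)
      have h3 : 0 < (((univ.filter fun ω' => On F A ω' ∧ P ω' = P ω).image o).card : ℝ) := by
        refine Nat.cast_pos.2 (Finset.card_pos.2 ⟨o ω, ?_⟩)
        exact Finset.mem_image.2 ⟨ω, Finset.mem_filter.2 ⟨mem_univ _, on_iff.1 hω, rfl⟩, rfl⟩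
      rw [Real.log_le_iff_le_exp h3]
      convert h2 using 4
    rwa [Ex_const hp.sum_one] at h1

/-- **The end of the skeleton**, for a good family. -/
theorem good_end (G : Good (M := M) δ γ s s₂ W h ψ F A e B N z u)
    (hp : IsLaw (Pool.Agent.H49.Ent.cond F.p A True)) {b : Bool} {k : ℕ} (hk : k < M) {w : ℚ}
    {α : Type} {K : F.Ω → α} {M₁ : F.Ω → Fin m → Fin m → ℝ}
    (c₁ : Cfr F A K (z b k w).g M₁) (hvis : DetA F A (ptk B k) K) (q : ℕ) :
    CH (Pool.Agent.H49.Ent.cond F.p A True) (lblc F J q (z b k w).q M₁)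
      (fun ω => ((F.X J ω, F.T ω), F.Z ω)) ≤
      N k + m * ((e + q + 2 * m + 8 : ℕ) * Real.log 2) := by
  have h0 := hp.nonneg
  have hmr : (0 : ℝ) ≤ m := Nat.cast_nonneg m
  have hm2 := nat_le_two_pow m
  obtain ⟨f, hf1, hf2, hf3⟩ := c₁.fac
  -- the point with the labels
  have h1 : CH (Pool.Agent.H49.Ent.cond F.p A True) (clab B k)
      (fun ω => ((F.X J ω, F.T ω), F.Z ω)) ≤ N k := by
    refine le_trans (CH_mono_cond h0 fun ω ω' _ _ h => ?_) (ch_of_cnt hp (G.chn.cnt k hk))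
    simp only [Prod.mk.injEq] at h
    show pt F ω = pt F ω'
    unfold Pool.PC.pt Fam.W
    rw [h.1.1, h.1.2, h.2]
  -- the conditions
  obtain ⟨V, hV⟩ : ∃ V : F.Ω → _, V = fun ω => (clab B k ω, ((F.X J ω, F.T ω), F.Z ω)) := ⟨_, rfl⟩
  have hVex : ∀ ω ω', V ω = V ω' → clab B k ω = clab B k ω' ∧ F.X J ω = F.X J ω' ∧
      F.T ω = F.T ω' ∧ F.Z ω = F.Z ω' := by
    intro ω ω' h
    rw [hV] at h
    simp only [Prod.mk.injEq] at h
    exact ⟨h.1, h.2.1.1, h.2.1.2, h.2.2⟩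
  have hVM : ∀ ω ω', On F A ω → On F A ω' → V ω = V ω' → M₁ ω = M₁ ω' := by
    intro ω ω' a b' h
    obtain ⟨k1, k2, k3, k4⟩ := hVex ω ω' h
    refine c₁.det ω ω' a b' (hvis ω ω' a b' ?_)
    unfold ptk Pool.PC.pt Fam.W
    rw [k1, k2, k3, k4]
  have hd : ∀ ω ω', On F A ω → On F A ω' → V ω = V ω' → ∀ i,
      |mco (M₁ ω) (F.d ω) i - mco (M₁ ω) (F.d ω') i| ≤ 2 ^ (e + m + q + 1) /
        2 ^ ((z b k w).q i + q) := by
    intro ω ω' a b' h i
    obtain ⟨k1, -, -, -⟩ := hVex ω ω' h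
    have k2 := clab_det (le_refl k) k1
    have k3 : (B k).g ω = (B k).g ω' := (Prod.ext_iff.mp k2).1
    have k4 : (B k).cel ω = (B k).cel ω' := (Prod.ext_iff.mp k2).2
    have k5 : (B k).In ω 1 (fun l => F.d ω l - F.d ω' l) := by
      intro j
      have k6 := congrFun k4 j
      unfold Bx.cel at k6
      rw [← k3] at k6
      rw [dot_sub]
      exact Box.near_of_floor k6
    have k6 := G.sup b k hk w ω a _ k5 i
    rw [← Box.mco_sub, hf3, mco_sm, abs_mul, abs_of_nonneg (by linarith [(hf1 ω).1])]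
    have k7 : |mco ((z b k w).g ω) (fun l => F.d ω l - F.d ω' l) i| ≤
        2 ^ (e + m) / 2 ^ (z b k w).q i := k6
    have k8 := mul_le_mul (hf1 ω).2 k7 (abs_nonneg _) (by norm_num)
    refine k8.trans (le_of_eq ?_)
    rw [pow_add 2 (z b k w |>.q i) q, show e + m + q + 1 = (e + m) + q + 1 by ring, pow_succ,
      pow_add 2 (e + m) q]
    field_simp
  have hx : ∀ ω ω', On F A ω → On F A ω' → V ω = V ω' → ∀ i,
      |mco (M₁ ω) (F.x1 J ω) i - mco (M₁ ω) (F.x1 J ω') i| ≤ 2 ^ (m + 1) / 2 ^ J := by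
    intro ω ω' a b' h i
    obtain ⟨-, k2, k3, -⟩ := hVex ω ω' h
    have k4 : ∀ l, |F.x1 J ω l - F.x1 J ω' l| ≤ 1 / 2 ^ J := by
      intro l
      have k5 := congrFun k2 l
      have k6 : ∀ o : F.Ω, F.x1 J o l = F.x o l := by
        intro o
        unfold Fam.x1 Fam.x Fam.t
        rw [T1_top]
      rw [k6, k6]
      exact Box.near_of_floor k5
    rw [← Box.mco_sub, hf3, mco_sm, abs_mul, abs_of_nonneg (by linarith [(hf1 ω).1])]
    have k7 : |mco ((z b k w).g ω) (fun l => F.x1 J ω l - F.x1 J ω' l) i| ≤ m * (1 / 2 ^ J) := by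
      unfold mco
      refine (Finset.abs_sum_le_sum_abs _ _).trans ?_
      have k8 : ∀ l ∈ (univ : Finset (Fin m)),
          |(z b k w).g ω i l * (F.x1 J ω l - F.x1 J ω' l)| ≤ 1 / 2 ^ J := by
        intro l _
        rw [abs_mul]
        have := mul_le_mul (((G.ok b k hk w).fr ω a).bd i l) (k4 l) (abs_nonneg _) zero_le_one
        linarith
      refine (Finset.sum_le_card_nsmul _ _ _ k8).trans ?_
      rw [card_univ, Fintype.card_fin, nsmul_eq_mul]
    have k8 := mul_le_mul (hf1 ω).2 k7 (abs_nonneg _) (by norm_num)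
    refine k8.trans ?_
    rw [pow_succ]
    rw [show (2 : ℝ) * (m * (1 / 2 ^ J)) = m * 2 / 2 ^ J by ring]
    exact div_le_div_of_nonneg_right (mul_le_mul_of_nonneg_right hm2 (by norm_num)) (by positivity)
  -- the cells
  have q1 : CH (Pool.Agent.H49.Ent.cond F.p A True) (F.mvl (fun i => (z b k w).q i + q) M₁) V ≤
      m * ((e + m + q + 4 : ℕ) * Real.log 2) := by
    refine (Lab.CH_fin_const hp _ V (c := 2 ^ (e + m + q + 1) + 1) (fun ω ω' a b' h i => ?_)).trans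
      (mul_le_mul_of_nonneg_left ?_ hmr)
    · unfold Fam.mvl flk
      rw [← hVM ω ω' (on_iff.1 a) (on_iff.1 b') h]
      exact Box.floor_near (hd ω ω' (on_iff.1 a) (on_iff.1 b') h i)
    · have := log_le_dig (n := e + m + q + 1)
      have e1 : 2 * ((2 : ℝ) ^ (e + m + q + 1) + 1) + 1 = 2 * 2 ^ (e + m + q + 1) + 3 := by ring
      rw [e1]
      exact this
  have q2 : CH (Pool.Agent.H49.Ent.cond F.p A True) (F.mps J (pc J J q (z b k w).q) M₁) V ≤
      m * ((m + 4 : ℕ) * Real.log 2) := by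
    refine (Lab.CH_fin_const hp _ V (c := 2 ^ (m + 1) + 1) (fun ω ω' a b' h i => ?_)).trans
      (mul_le_mul_of_nonneg_left ?_ hmr)
    · unfold Fam.mps flk
      have e1 : pc J J q (z b k w).q i = J := min_eq_right (by omega)
      rw [← hVM ω ω' (on_iff.1 a) (on_iff.1 b') h, e1]
      exact Box.floor_near (hx ω ω' (on_iff.1 a) (on_iff.1 b') h i)
    · have := log_le_dig (n := m + 1)
      have e1 : 2 * ((2 : ℝ) ^ (m + 1) + 1) + 1 = 2 * 2 ^ (m + 1) + 3 := by ring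
      rw [e1]
      exact this
  have q3 := CH_le_add h0 (lblc F J q (z b k w).q M₁) (clab B k)
    (fun ω => ((F.X J ω, F.T ω), F.Z ω))
  have q4 : CH (Pool.Agent.H49.Ent.cond F.p A True) (lblc F J q (z b k w).q M₁) V ≤
      CH (Pool.Agent.H49.Ent.cond F.p A True) (fun ω => (F.mps J (pc J J q (z b k w).q) M₁ ω,
        F.mvl (fun i => (z b k w).q i + q) M₁ ω)) V := by
    refine CH_mono_left h0 fun ω ω' a b' h => ?_
    have h2 := Prod.ext_iff.mp h
    obtain ⟨-, -, k3, k4⟩ := hVex ω ω' h2.2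
    have h3 := Prod.ext_iff.mp h2.1
    exact Box.mlb_mk (by rw [T1_top, T1_top, k3]) (hVM ω ω' (on_iff.1 a) (on_iff.1 b') h2.2)
      h3.1 h3.2 k4
  have q5 := CH_subadd h0 (F.mps J (pc J J q (z b k w).q) M₁)
    (F.mvl (fun i => (z b k w).q i + q) M₁) V
  rw [hV] at q1 q2 q4 q5
  have e1 : (m : ℝ) * ((e + q + 2 * m + 8 : ℕ) * Real.log 2) =
      m * ((e + m + q + 4 : ℕ) * Real.log 2) + m * ((m + 4 : ℕ) * Real.log 2) := by
    push_cast
    ring
  rw [e1]
  linarith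

/-- **THE SKELETON for good families.** Level `k`, shift `q`; the windows `w 0 = 0, .., w n = 1`;
`K i`: visible closed histories. The steps give a label of the line. -/
theorem good_skel (G : Good (M := M) δ γ s s₂ W h ψ F A e B N z u)
    (hp : IsLaw (Pool.Agent.H49.Ent.cond F.p A True)) {b : Bool} {k : ℕ} (hk : k < M) (n : ℕ)
    (w : ℕ → ℚ) (hw0 : w 0 = 0) (hwn : w n = 1) {α : Type} (K : ℕ → F.Ω → α)
    (Mf : ℕ → F.Ω → Fin m → Fin m → ℝ) (c₀ : Cfr F A (K 0) (z b k (w 0)).g (Mf 0))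
    (cn : Cfr F A (K n) (z b k (w n)).g (Mf n)) (hvis : DetA F A (ptk B k) (K n)) (q : ℕ)
    (E : ℕ → ℝ)
    (hstep : ∀ i < n, nfo (F.res A True hp) (Pool.NB.win J (w i))
        (lblc (F.res A True hp) (Pool.NB.win J (w i)) q (z b k (w i)).q (Mf i)) +
      ((∑ j, pc J (Pool.NB.win J (w (i + 1))) q (z b k (w (i + 1))).q j : ℕ) -
        (∑ j, pc J (Pool.NB.win J (w i)) q (z b k (w i)).q j : ℕ) : ℝ) * Real.log 2 - E i ≤
      nfo (F.res A True hp) (Pool.NB.win J (w (i + 1)))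
        (lblc (F.res A True hp) (Pool.NB.win J (w (i + 1))) q (z b k (w (i + 1))).q (Mf (i + 1))))
    {b' : ℝ} (hb' : 2 ^ m ≤ b') :
    ∃ L : Lbl (F.res A True hp) b', L.cost ≤ (F.res A True hp).Vf + N k +
      m * ((e + q + 2 * m + 18 : ℕ) * Real.log 2) + ∑ i ∈ range n, E i := by
  have h1 := skel (F.res A True hp) n (fun i => Pool.NB.win J (w i))
    (by
      show Pool.NB.win J (w 0) = 0
      rw [hw0]
      unfold Pool.NB.win
      simp)
    (by
      show Pool.NB.win J (w n) = J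
      rw [hwn]
      unfold Pool.NB.win
      simp) q (fun i => (z b k (w i)).q) Mf E hstep (good_end G hp hk cn hvis q)
  obtain ⟨L, hL⟩ := lbl_start (F.res A True hp) (c₀.cf (G.ok b k hk (w 0))) q (z b k (w 0)).q hb'
  refine ⟨L, ?_⟩
  have e1 : (m : ℝ) * ((e + q + 2 * m + 18 : ℕ) * Real.log 2) =
      m * ((e + q + 2 * m + 8 : ℕ) * Real.log 2) + 10 * (m * Real.log 2) := by
    push_cast
    ring
  have e2 : 0 ≤ (m : ℝ) * Real.log 2 := mul_nonneg (Nat.cast_nonneg m) (Real.log_nonneg (by norm_num))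
  rw [e1]
  linarith

end good

end Pool.GAM
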