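import Pool.Agent.H69.GAM.Flat
import Pool.Agent.H81.XF.Uni

/-!
# The noise family

`F.noi c`: the positions get independent uniform digits after the digit `J`, the times get
independent uniform digits after the digit `J`. The position at time zero encodes the old position
and the noise. Then no precision is capped at `J`.
-/

set_option autoImplicit false

namespace Pool.GAM

open Finset Real
open Pool.Agent.H49.Ent Pool.Agent.H32.Dense Pool.STK Pool.KA Pool.K2S Pool.KSAT
open Pool.PC (nfo)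
open Pool.NB (dot Fr ch_vol nat_le_two_pow)
open Pool.XF (uni uni_law uni_pos uni_marg CH_uni)

variable {m J : ℕ}

/-! ### Codes -/

/-- Small numbers which make the sums different. -/
theorem code_add {α : Type} (t : Finset α) (ν : α → ℝ) {η : ℝ} (hη : 0 < η) :
    ∃ c : α → ℝ, (∀ a, 0 ≤ c a ∧ c a ≤ η) ∧
      ∀ a ∈ t, ∀ b ∈ t, ν a + c a = ν b + c b → a = b := by
  classical
  induction t using Finset.induction_on with
  | empty =>
    exact ⟨fun _ => 0, fun _ => ⟨le_rfl, hη.le⟩, fun a ha => absurd ha (Finset.notMem_empty a)⟩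
  | insert a t ha ih =>
    obtain ⟨c, hc1, hc2⟩ := ih
    obtain ⟨x, hx1, hx2⟩ := (Set.Icc_infinite hη).exists_notMem_finset
      (t.image fun b => c b + ν b - ν a)
    have hbad : ∀ b ∈ t, ν a + x ≠ ν b + c b := by
      intro b hb h
      refine hx2 (Finset.mem_image.2 ⟨b, hb, ?_⟩)
      linarith
    refine ⟨fun b => if b = a then x else c b, fun b => ?_, fun b hb b' hb' h => ?_⟩
    · show 0 ≤ (if b = a then x else c b) ∧ (if b = a then x else c b) ≤ η
      split_ifs
      · exact ⟨hx1.1, hx1.2⟩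
      · exact hc1 b
    · have h' : ν b + (if b = a then x else c b) = ν b' + (if b' = a then x else c b') := h
      rcases Finset.mem_insert.1 hb with h1 | h1 <;> rcases Finset.mem_insert.1 hb' with h2 | h2
      · rw [h1, h2]
      · have n2 : b' ≠ a := fun h3 => ha (h3 ▸ h2)
        rw [if_pos h1, if_neg n2, h1] at h'
        exact absurd h' (hbad b' h2)
      · have n1 : b ≠ a := fun h3 => ha (h3 ▸ h1)
        rw [if_neg n1, if_pos h2, h2] at h'
        exact absurd h'.symm (hbad b h1)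
      · have n1 : b ≠ a := fun h3 => ha (h3 ▸ h1)
        have n2 : b' ≠ a := fun h3 => ha (h3 ▸ h2)
        rw [if_neg n1, if_neg n2] at h'
        exact hc2 b h1 b' h2 h'

/-! ### The noise -/

/-- The number of digits of the noise. -/
def nzN (m J : ℕ) : ℕ := (m + 1) * (2 * J)

/-- The components of the noise. -/
noncomputable def nzE (m J : ℕ) : Fin (2 ^ nzN m J) ≃ (Fin (m + 1) → Fin (2 ^ (2 * J))) :=
  Fintype.equivOfCardEq (by
    rw [Fintype.card_fin, Fintype.card_fun, Fintype.card_fin, Fintype.card_fin, nzN, mul_comm,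
      pow_mul])

/-- The noise of the position. -/
noncomputable def xiN (a : Fin (2 ^ nzN m J)) (i : Fin m) : ℕ := (nzE m J a i.succ : ℕ)

/-- The noise of the time. -/
noncomputable def tauN (m J : ℕ) (a : Fin (2 ^ nzN m J)) : ℕ := (nzE m J a 0 : ℕ)

theorem xiN_lt (a : Fin (2 ^ nzN m J)) (i : Fin m) : xiN a i < 2 ^ (2 * J) :=
  (nzE m J a i.succ).2

theorem tauN_lt (a : Fin (2 ^ nzN m J)) : tauN m J a < 2 ^ (2 * J) := (nzE m J a 0).2

theorem nz_ext {a a' : Fin (2 ^ nzN m J)} (h : xiN a = xiN a') (h' : tauN m J a = tauN m J a') :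
    a = a' := by
  refine (nzE m J).injective (funext fun i => ?_)
  refine Fin.cases ?_ (fun j => ?_) i
  · exact Fin.ext h'
  · exact Fin.ext (congrFun h j)

/-- **The noise family.** -/
noncomputable def noi (F : Fam m J) (c : (Fin m → ℝ) × (Fin m → ℕ) → ℝ) : Fam m (3 * J) where
  Ω := F.Ω × Fin (2 ^ nzN m J)
  ζ := F.ζ
  fin := inferInstance
  p := uni (nzN m J) F.p
  u w i := F.u w.1 i + (xiN w.2 i + c (F.u w.1, xiN w.2)) / 2 ^ (3 * J)
  d w := F.d w.1
  T w := F.T w.1 * 2 ^ (2 * J) + tauN m J w.2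
  Z w := F.Z w.1
  isLaw := uni_law F.isLaw _
  dir w := F.dir w.1
  tim w := by
    have h1 := F.tim w.1
    have h2 := tauN_lt w.2
    have e : 2 ^ (3 * J) = 2 ^ J * 2 ^ (2 * J) := by
      rw [← pow_add]
      congr 1
      ring
    rw [e]
    calc F.T w.1 * 2 ^ (2 * J) + tauN m J w.2 < F.T w.1 * 2 ^ (2 * J) + 2 ^ (2 * J) := by omega
      _ = (F.T w.1 + 1) * 2 ^ (2 * J) := by ring
      _ ≤ 2 ^ J * 2 ^ (2 * J) := Nat.mul_le_mul_right _ h1

/-- The code is good for the family. -/
structure NCode (F : Fam m J) (c : (Fin m → ℝ) × (Fin m → ℕ) → ℝ) : Prop where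
  nn : ∀ x, 0 ≤ c x
  le : ∀ x, c x ≤ 1
  inj : ∀ w w' : F.Ω × Fin (2 ^ nzN m J), (noi F c).u w = (noi F c).u w' →
    F.u w.1 = F.u w'.1 ∧ xiN w.2 = xiN w'.2

open Classical in
theorem ncode (F : Fam m J) (hm : 0 < m) : ∃ c, NCode F c := by
  obtain ⟨c, h1, h2⟩ := code_add ((univ : Finset (F.Ω × Fin (2 ^ nzN m J))).image fun w =>
    (F.u w.1, xiN (m := m) w.2)) (fun x => x.1 ⟨0, hm⟩ * 2 ^ (3 * J) + x.2 ⟨0, hm⟩) one_pos
  refine ⟨c, fun x => (h1 x).1, fun x => (h1 x).2, fun w w' h => ?_⟩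
  have h3 := congrFun h ⟨0, hm⟩
  have h4 : F.u w.1 ⟨0, hm⟩ + (xiN w.2 ⟨0, hm⟩ + c (F.u w.1, xiN w.2)) / 2 ^ (3 * J) =
    F.u w'.1 ⟨0, hm⟩ + (xiN w'.2 ⟨0, hm⟩ + c (F.u w'.1, xiN w'.2)) / 2 ^ (3 * J) := h3
  have hp : (2 : ℝ) ^ (3 * J) ≠ 0 := by positivity
  have h5 := h2 (F.u w.1, xiN w.2) (Finset.mem_image.2 ⟨w, mem_univ _, rfl⟩)
    (F.u w'.1, xiN w'.2) (Finset.mem_image.2 ⟨w', mem_univ _, rfl⟩) (by
      show F.u w.1 ⟨0, hm⟩ * 2 ^ (3 * J) + xiN w.2 ⟨0, hm⟩ + c (F.u w.1, xiN w.2) =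
        F.u w'.1 ⟨0, hm⟩ * 2 ^ (3 * J) + xiN w'.2 ⟨0, hm⟩ + c (F.u w'.1, xiN w'.2)
      have h6 := congrArg (fun x => x * (2 : ℝ) ^ (3 * J)) h4
      simp only [add_mul, div_mul_cancel₀ _ hp] at h6
      linarith)
  exact Prod.ext_iff.mp h5

section

variable {F : Fam m J} {c : (Fin m → ℝ) × (Fin m → ℕ) → ℝ}

theorem noi_T1 (F : Fam m J) (c : (Fin m → ℝ) × (Fin m → ℕ) → ℝ) {w : ℕ} (hw : w ≤ J)
    (x : F.Ω × Fin (2 ^ nzN m J)) : (noi F c).T1 w x = F.T1 w x.1 := by
  show (F.T x.1 * 2 ^ (2 * J) + tauN m J x.2) / 2 ^ (3 * J - w) = F.T x.1 / 2 ^ (J - w)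
  have e : 3 * J - w = 2 * J + (J - w) := by omega
  rw [e, pow_add, ← Nat.div_div_eq_div_mul]
  congr 1
  rw [mul_comm, Nat.mul_add_div (by positivity), Nat.div_eq_of_lt (tauN_lt x.2), Nat.add_zero]

/-- The position of the noise family. -/
theorem noi_x1 (F : Fam m J) (c : (Fin m → ℝ) × (Fin m → ℕ) → ℝ) {w : ℕ} (hw : w ≤ J)
    (x : F.Ω × Fin (2 ^ nzN m J)) (l : Fin m) : (noi F c).x1 w x l =
      F.x1 w x.1 l + (xiN x.2 l + c (F.u x.1, xiN x.2)) / 2 ^ (3 * J) := by
  unfold Fam.x1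
  rw [noi_T1 F c hw]
  show F.u x.1 l + (xiN x.2 l + c (F.u x.1, xiN x.2)) / 2 ^ (3 * J) + _ * F.d x.1 l = _
  ring

/-- The lines of the noise family. -/
theorem noi_slam (h : NCode F c) {w : ℕ} (hw : w ≤ J) {x x' : F.Ω × Fin (2 ^ nzN m J)} :
    slam (noi F c) w x = slam (noi F c) w x' ↔ slam F w x.1 = slam F w x'.1 ∧
      xiN (m := m) x.2 = xiN x'.2 := by
  unfold slam Fam.l
  simp only [Prod.mk.injEq]
  rw [noi_T1 F c hw, noi_T1 F c hw]
  constructor
  · rintro ⟨⟨h1, h2⟩, h3, h4⟩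
    obtain ⟨h5, h6⟩ := h.inj x x' h1
    exact ⟨⟨⟨h5, h2⟩, h3, h4⟩, h6⟩
  · rintro ⟨⟨⟨h1, h2⟩, h3, h4⟩, h5⟩
    refine ⟨⟨?_, h2⟩, h3, h4⟩
    funext i
    show F.u x.1 i + (xiN x.2 i + c (F.u x.1, xiN x.2)) / 2 ^ (3 * J) =
      F.u x'.1 i + (xiN x'.2 i + c (F.u x'.1, xiN x'.2)) / 2 ^ (3 * J)
    rw [h1, h5]

/-! ### The entropy of the noise -/

/-- Functions of the sample of the old family. -/
theorem ch_old {S T : Type} (F : Fam m J) (c : (Fin m → ℝ) × (Fin m → ℕ) → ℝ) (X : F.Ω → S)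
    (W : F.Ω → T) : CH (noi F c).p (fun x => X x.1) (fun x => W x.1) = CH F.p X W :=
  (uni_marg (nzN m J)).CH X W

/-- The noise is independent of the old family. -/
theorem ch_old_xi {S T U : Type} (F : Fam m J) (c : (Fin m → ℝ) × (Fin m → ℕ) → ℝ) (X : F.Ω → S)
    (W : F.Ω → T) (η : Fin (2 ^ nzN m J) → U) :
    CH (noi F c).p (fun x => X x.1) (fun x => (W x.1, η x.2)) = CH F.p X W := by
  have h0 := (noi F c).isLaw.nonneg
  refine le_antisymm ?_ ?_
  · rw [← ch_old F c X W]
    exact CH_mono_cond h0 fun x x' _ _ h => (Prod.ext_iff.mp h).1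
  · have h1 : CH (noi F c).p (fun x => X x.1) (fun x => (x.2, W x.1)) = CH F.p X W :=
      CH_uni F.isLaw (nzN m J) X W
    rw [← h1]
    refine CH_mono_cond h0 fun x x' _ _ h => ?_
    have h2 := Prod.ext_iff.mp h
    exact Prod.ext h2.2 (congrArg η h2.1)

/-- The entropy of the noise, given the old sample and the noise of the time. -/
theorem ch_noise (F : Fam m J) (c : (Fin m → ℝ) × (Fin m → ℕ) → ℝ) :
    (m : ℝ) * (2 * J : ℕ) * Real.log 2 ≤
      CH (noi F c).p (fun x => x.2) (fun x => (x.1, tauN m J x.2)) := by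
  have hq := (noi F c).isLaw
  have h0 := hq.nonneg
  have h1 : CH (noi F c).p (fun x => x.2) (fun x => x.1) = nzN m J * Real.log 2 := by
    have e1 := Pool.XF.H_uni F.isLaw (nzN m J) (fun ω => ω)
    have e2 : Pool.Agent.H49.Ent.H (noi F c).p (fun x => x.1) =
        Pool.Agent.H49.Ent.H F.p (fun ω => ω) := (uni_marg (nzN m J)).H (fun ω => ω)
    unfold CH
    rw [e2]
    have e3 : Pool.Agent.H49.Ent.H (noi F c).p (fun x => (x.2, x.1)) =
        Pool.Agent.H49.Ent.H F.p (fun ω => ω) + nzN m J * Real.log 2 := e1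
    rw [e3]
    ring
  have h2 := CH_le_add h0 (fun x : F.Ω × Fin (2 ^ nzN m J) => x.2) (fun x => tauN m J x.2)
    (fun x => x.1)
  have h3 : CH (noi F c).p (fun x => tauN m J x.2) (fun x => x.1) ≤ (2 * J : ℕ) * Real.log 2 := by
    refine (CH_le_card h0 hq.sum_one (fun x : F.Ω × Fin (2 ^ nzN m J) => tauN m J x.2) _
      (fun _ => Finset.range (2 ^ (2 * J))) (fun x _ => Finset.mem_range.2 (tauN_lt x.2))).trans ?_
    rw [Finset.card_range]
    push_cast
    rw [Ex_const hq.sum_one, Real.log_pow]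
    push_cast
    exact le_rfl
  have h4 : CH (noi F c).p (fun x => x.2) (fun x => (tauN m J x.2, x.1)) ≤
      CH (noi F c).p (fun x => x.2) (fun x => (x.1, tauN m J x.2)) :=
    CH_mono_cond h0 fun x x' _ _ h => Prod.ext (Prod.ext_iff.mp h).2 (Prod.ext_iff.mp h).1
  have e4 : ((nzN m J : ℕ) : ℝ) = (m : ℝ) * (2 * J : ℕ) + (2 * J : ℕ) := by
    unfold nzN
    push_cast
    ring
  have h5 : ((m : ℝ) * (2 * J : ℕ) + (2 * J : ℕ)) * Real.log 2 ≤
      CH (noi F c).p (fun x => tauN m J x.2) (fun x => x.1) +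
        CH (noi F c).p (fun x => x.2) (fun x => (tauN m J x.2, x.1)) := by
    rw [← e4]
    exact h1.symm.le.trans h2
  have e6 : ((m : ℝ) * (2 * J : ℕ) + (2 * J : ℕ)) * Real.log 2 =
      (m : ℝ) * (2 * J : ℕ) * Real.log 2 + (2 * J : ℕ) * Real.log 2 := by ring
  rw [e6] at h5
  linarith

/-- A vector, coordinate after coordinate. -/
theorem ch_seq {Ω T : Type} [Fintype Ω] {p : Ω → ℝ} (hp : ∀ ω, 0 ≤ p ω) (X : Ω → Fin m → ℤ)
    (W : Ω → T) : CH p X W ≤ ∑ i : Fin m, CH p (fun ω => X ω i)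
      (fun ω => ((fun j : Fin m => if j < i then X ω j else 0), W ω)) := by
  have key : ∀ k ≤ m, CH p (fun ω (j : Fin m) => if (j : ℕ) < k then X ω j else 0) W ≤
      ∑ i : Fin m, if (i : ℕ) < k then CH p (fun ω => X ω i)
        (fun ω => ((fun j : Fin m => if j < i then X ω j else 0), W ω)) else 0 := by
    intro k
    induction k with
    | zero =>
      intro _
      refine le_of_eq ?_
      rw [CH_eq_zero hp (fun ω ω' _ _ _ => by simp)]
      simp
    | succ k ih =>
      intro hk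
      have h1 := ih (by omega)
      have hkm : k < m := by omega
      have h2 := CH_le_add hp (fun ω (j : Fin m) => if (j : ℕ) < k + 1 then X ω j else 0)
        (fun ω (j : Fin m) => if (j : ℕ) < k then X ω j else 0) W
      have h3 : CH p (fun ω (j : Fin m) => if (j : ℕ) < k + 1 then X ω j else 0)
          (fun ω => ((fun (j : Fin m) => if (j : ℕ) < k then X ω j else 0), W ω)) ≤
          CH p (fun ω => X ω ⟨k, hkm⟩) (fun ω => ((fun j : Fin m => if j < ⟨k, hkm⟩ then X ω j
            else 0), W ω)) := by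
        refine (CH_mono_left hp ?_).trans (CH_mono_cond hp ?_)
        · intro ω ω' _ _ h
          have h4 := Prod.ext_iff.mp h
          have h5 := (Prod.ext_iff.mp h4.2).1
          funext j
          have h6 := congrFun h5 j
          simp only at h6 ⊢
          by_cases h7 : (j : ℕ) < k
          · rw [if_pos h7, if_pos h7] at h6
            rw [if_pos (by omega), if_pos (by omega)]
            exact h6
          · by_cases h8 : (j : ℕ) < k + 1
            · have h9 : j = ⟨k, hkm⟩ := Fin.ext (show (j : ℕ) = k by omega)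
              rw [if_pos h8, if_pos h8, h9]
              exact h4.1
            · rw [if_neg h8, if_neg h8]
        · intro ω ω' _ _ h
          exact h
      have h4 : ∑ i : Fin m, (if (i : ℕ) < k + 1 then CH p (fun ω => X ω i)
          (fun ω => ((fun j : Fin m => if j < i then X ω j else 0), W ω)) else 0) =
          ∑ i : Fin m, (if (i : ℕ) < k then CH p (fun ω => X ω i)
          (fun ω => ((fun j : Fin m => if j < i then X ω j else 0), W ω)) else 0) +
          CH p (fun ω => X ω ⟨k, hkm⟩) (fun ω => ((fun j : Fin m => if j < ⟨k, hkm⟩ then X ω j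
            else 0), W ω)) := by
        have e1 : ∀ i : Fin m, (if (i : ℕ) < k + 1 then CH p (fun ω => X ω i)
            (fun ω => ((fun j : Fin m => if j < i then X ω j else 0), W ω)) else 0) =
            (if (i : ℕ) < k then CH p (fun ω => X ω i)
            (fun ω => ((fun j : Fin m => if j < i then X ω j else 0), W ω)) else 0) +
            (if i = ⟨k, hkm⟩ then CH p (fun ω => X ω i)
            (fun ω => ((fun j : Fin m => if j < i then X ω j else 0), W ω)) else 0) := by
          intro i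
          by_cases h7 : (i : ℕ) < k
          · rw [if_pos (by omega), if_pos h7, if_neg (fun h => absurd h7 (by
              rw [h]; exact lt_irrefl k)), add_zero]
          · by_cases h8 : i = ⟨k, hkm⟩
            · rw [if_pos (by rw [h8]; exact Nat.lt_succ_self k), if_neg h7, if_pos h8, zero_add]
            · have h9 : ¬ (i : ℕ) < k + 1 := fun h => h8 (Fin.ext (show (i : ℕ) = k by omega))
              rw [if_neg h9, if_neg h7, if_neg h8, add_zero]
        rw [Finset.sum_congr rfl fun i _ => e1 i, Finset.sum_add_distrib, Finset.sum_ite_eq',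
          if_pos (mem_univ _)]
      rw [h4]
      linarith
  have h1 := key m le_rfl
  have h2 : CH p X W ≤ CH p (fun ω (j : Fin m) => if (j : ℕ) < m then X ω j else 0) W := by
    refine CH_mono_left hp fun ω ω' _ _ h => ?_
    have h3 := (Prod.ext_iff.mp h).1
    funext j
    have h4 := congrFun h3 j
    simp only at h4
    rwa [if_pos j.2, if_pos j.2] at h4
  refine h2.trans (h1.trans (le_of_eq ?_))
  exact Finset.sum_congr rfl fun i _ => if_pos i.2

theorem log_dig {n k : ℕ} {x : ℝ} (hx : 0 < x) (h : x ≤ 2 ^ (n + k)) :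
    Real.log x ≤ (n + k : ℕ) * Real.log 2 := by
  rw [← Real.log_pow]
  exact Real.log_le_log hx h

/-- **The cells of the position with noise**, given the old sample. -/
theorem noise_low {F : Fam m J} {c : (Fin m → ℝ) × (Fin m → ℕ) → ℝ} (hc : NCode F c)
    {o : Equiv.Perm (Fin m)} {g M : F.Ω → Fin m → Fin m → ℝ} (hM : Cf F.p o g M) {R : ℕ}
    (hR : R ≤ J) {κ : Fin m → ℕ} (hκ : ∀ i, κ i ≤ 3 * J) :
    ((∑ i, max (κ i) J : ℕ) - (m * J : ℕ) : ℝ) * Real.log 2 - m * ((m + 3 : ℕ) * Real.log 2) ≤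
      CH (noi F c).p ((noi F c).mps R κ (fun x => M x.1)) (fun x => (x.1, tauN m J x.2)) := by
  have hq := (noi F c).isLaw
  have h0 := hq.nonneg
  obtain ⟨f, hf1, hf2, hf3⟩ := hM.fac
  obtain ⟨P, hP⟩ : ∃ P, P = (noi F c).mps R κ (fun x => M x.1) := ⟨_, rfl⟩
  rw [← hP]
  have h1 := ch_noise F c
  have h2 := CH_le_add h0 (fun x : F.Ω × Fin (2 ^ nzN m J) => x.2) P
    (fun x => (x.1, tauN m J x.2))
  have h3 : CH (noi F c).p (fun x => x.2) (fun x => (P x, (x.1, tauN m J x.2))) ≤
      CH (noi F c).p (fun x (i : Fin m) => (xiN x.2 (o i) : ℤ))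
        (fun x => (P x, (x.1, tauN m J x.2))) := by
    refine CH_mono_left h0 fun x x' _ _ h => ?_
    have h4 := Prod.ext_iff.mp h
    have h5 := (Prod.ext_iff.mp (Prod.ext_iff.mp h4.2).2).2
    refine nz_ext (funext fun l => ?_) h5
    obtain ⟨i, rfl⟩ := o.surjective l
    have h6 : ((xiN (m := m) x.2 (o i) : ℕ) : ℤ) = ((xiN (m := m) x'.2 (o i) : ℕ) : ℤ) :=
      congrFun h4.1 i
    exact_mod_cast h6
  have h4 := ch_seq h0 (fun x (i : Fin m) => ((xiN (m := m) (J := J) x.2 (o i) : ℕ) : ℤ))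
    (fun x : F.Ω × Fin (2 ^ nzN m J) => (P x, (x.1, tauN m J x.2)))
  have h5 : ∀ i : Fin m, CH (noi F c).p (fun x => ((xiN (m := m) (J := J) x.2 (o i) : ℕ) : ℤ))
      (fun x => ((fun j : Fin m => if j < i then ((xiN (m := m) (J := J) x.2 (o j) : ℕ) : ℤ)
        else 0), (P x, (x.1, tauN m J x.2)))) ≤
      ((3 * J - max (κ i) J) + (m + 3) : ℕ) * Real.log 2 := by
    intro i
    obtain ⟨n, hn⟩ : ∃ n, n = 3 * J - max (κ i) J := ⟨_, rfl⟩
    rw [← hn]
    refine (CH_le_int h0 hq.sum_one _ _ (fun _ => 2 ^ n + m) (fun x x' a b h => ?_)).trans ?_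
    · simp only [Prod.mk.injEq] at h
      obtain ⟨k1, k2, k3, k4⟩ := h
      have hω : 0 < F.p x.1 := uni_pos _ a
      have hfr := hM.fr x.1 hω
      have htriv : |((((xiN (m := m) x.2 (o i) : ℕ) : ℤ) -
          ((xiN (m := m) x'.2 (o i) : ℕ) : ℤ) : ℤ) : ℝ)| ≤ 2 ^ (2 * J) := by
        have b1 : ((xiN (m := m) x.2 (o i) : ℕ) : ℝ) ≤ 2 ^ (2 * J) := by
          exact_mod_cast (xiN_lt x.2 (o i)).le
        have b2 : ((xiN (m := m) x'.2 (o i) : ℕ) : ℝ) ≤ 2 ^ (2 * J) := by
          exact_mod_cast (xiN_lt x'.2 (o i)).le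
        have b3 : (0 : ℝ) ≤ (xiN (m := m) x.2 (o i) : ℕ) := Nat.cast_nonneg _
        have b4 : (0 : ℝ) ≤ (xiN (m := m) x'.2 (o i) : ℕ) := Nat.cast_nonneg _
        push_cast
        rw [abs_le]
        constructor <;> linarith
      have hm0 : (0 : ℝ) ≤ m := Nat.cast_nonneg m
      rcases le_total (κ i) J with hκJ | hκJ
      · rw [max_eq_right hκJ] at hn
        have e1 : n = 2 * J := by omega
        rw [e1]
        linarith
      · rw [max_eq_left hκJ] at hn
        -- the cell
        have h6 := congrFun k2 i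
        rw [hP] at h6
        have h7 : ⌊(2 : ℝ) ^ κ i * mco (M x.1) ((noi F c).x1 R x) i⌋ =
          ⌊(2 : ℝ) ^ κ i * mco (M x'.1) ((noi F c).x1 R x') i⌋ := h6
        rw [← k3] at h7
        have h8 := Box.near_of_floor h7
        rw [← Box.mco_sub, hf3, mco_sm, abs_mul, abs_of_nonneg (by linarith [(hf1 x.1).1])] at h8
        have h9 : |mco (g x.1) (fun l => (noi F c).x1 R x l - (noi F c).x1 R x' l) i| ≤
            1 / 2 ^ κ i := by
          refine le_trans ?_ h8
          have := mul_le_mul_of_nonneg_right (hf1 x.1).1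
            (abs_nonneg (mco (g x.1) (fun l => (noi F c).x1 R x l - (noi F c).x1 R x' l) i))
          linarith
        obtain ⟨e, he⟩ : ∃ e : ℝ, e = c (F.u x.1, xiN x.2) - c (F.u x'.1, xiN x'.2) := ⟨_, rfl⟩
        have he1 : |e| ≤ 1 := by
          have b1 := hc.nn (F.u x.1, xiN x.2)
          have b2 := hc.le (F.u x.1, xiN x.2)
          have b3 := hc.nn (F.u x'.1, xiN x'.2)
          have b4 := hc.le (F.u x'.1, xiN x'.2)
          rw [he, abs_le]
          constructor <;> linarith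
        have h10 : ∀ l, (noi F c).x1 R x l - (noi F c).x1 R x' l =
            (((xiN (m := m) x.2 l : ℕ) : ℝ) - (xiN (m := m) x'.2 l : ℕ) + e) / 2 ^ (3 * J) := by
          intro l
          have a1 := noi_x1 F c hR x l
          have a2 := noi_x1 F c hR x' l
          rw [a1, a2, he, ← k3]
          ring
        have h11 : mco (g x.1) (fun l => (noi F c).x1 R x l - (noi F c).x1 R x' l) i =
            ((((xiN (m := m) x.2 (o i) : ℕ) : ℝ) - (xiN (m := m) x'.2 (o i) : ℕ)) +
              e * ∑ l, g x.1 i l) / 2 ^ (3 * J) := by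
          unfold mco
          have e2 : ∀ l ∈ (univ : Finset (Fin m)),
              g x.1 i l * ((noi F c).x1 R x l - (noi F c).x1 R x' l) =
              (g x.1 i l * (((xiN (m := m) x.2 l : ℕ) : ℝ) - (xiN (m := m) x'.2 l : ℕ)) +
                e * g x.1 i l) / 2 ^ (3 * J) := by
            intro l _
            rw [h10]
            ring
          rw [Finset.sum_congr rfl e2, ← Finset.sum_div, Finset.sum_add_distrib, ← Finset.mul_sum]
          congr 2
          rw [Finset.sum_eq_single (o i)]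
          · rw [hfr.one, one_mul]
          · intro l _ hl
            obtain ⟨j, rfl⟩ := o.surjective l
            have hji : j ≠ i := fun h => hl (by rw [h])
            rcases lt_or_gt_of_ne hji with h12 | h12
            · have h13 : (if j < i then ((xiN (m := m) (J := J) x.2 (o j) : ℕ) : ℤ) else 0) =
                  (if j < i then ((xiN (m := m) (J := J) x'.2 (o j) : ℕ) : ℤ) else 0) :=
                congrFun k1 j
              rw [if_pos h12, if_pos h12] at h13
              have h14 : xiN (m := m) x.2 (o j) = xiN x'.2 (o j) := by exact_mod_cast h13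
              rw [h14, sub_self, mul_zero]
            · rw [hfr.zer i j h12, zero_mul]
          · intro hcon
            exact absurd (mem_univ _) hcon
        rw [h11, abs_div, abs_of_pos (show (0 : ℝ) < 2 ^ (3 * J) by positivity),
          div_le_div_iff₀ (by positivity) (by positivity), one_mul] at h9
        have h12 : (2 : ℝ) ^ (3 * J) = 2 ^ n * 2 ^ κ i := by
          rw [← pow_add]
          congr 1
          have := hκ i
          omega
        rw [h12] at h9
        have h13 := le_of_mul_le_mul_right h9 (by positivity)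
        have h14 : |e * ∑ l, g x.1 i l| ≤ m := by
          rw [abs_mul]
          have h15 : |∑ l, g x.1 i l| ≤ m := by
            refine (Finset.abs_sum_le_sum_abs _ _).trans ?_
            refine (Finset.sum_le_card_nsmul _ _ 1 fun l _ => hfr.bd i l).trans ?_
            rw [card_univ, Fintype.card_fin, nsmul_eq_mul, mul_one]
          have := mul_le_mul he1 h15 (abs_nonneg _) zero_le_one
          linarith
        push_cast
        have h15 := abs_le.1 h13
        have h16 := abs_le.1 h14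
        rw [abs_le]
        constructor <;> linarith [h15.1, h15.2, h16.1, h16.2]
    · rw [Ex_const hq.sum_one]
      refine log_dig (by positivity) ?_
      have hm2 := nat_le_two_pow m
      have b1 : (1 : ℝ) ≤ 2 ^ m := one_le_pow₀ (by norm_num)
      have b2 : (1 : ℝ) ≤ 2 ^ n := one_le_pow₀ (by norm_num)
      rw [pow_add 2 n, pow_add 2 m]
      have b3 : (2 : ℝ) ^ n ≤ 2 ^ n * 2 ^ m := by nlinarith
      have b4 : (m : ℝ) ≤ 2 ^ n * 2 ^ m := by nlinarith
      nlinarith
  have h6 := Finset.sum_le_sum fun i (_ : i ∈ (univ : Finset (Fin m))) => h5 i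
  have h7 : ∑ i : Fin m, (((3 * J - max (κ i) J) + (m + 3) : ℕ) : ℝ) * Real.log 2 =
      ((3 * (m * J) : ℕ) - (∑ i, max (κ i) J : ℕ) : ℝ) * Real.log 2 +
        m * ((m + 3 : ℕ) * Real.log 2) := by
    rw [← Finset.sum_mul]
    have e3 : ∀ i ∈ (univ : Finset (Fin m)), (((3 * J - max (κ i) J) + (m + 3) : ℕ) : ℝ) =
        (3 * J : ℕ) - (max (κ i) J : ℕ) + (m + 3 : ℕ) := by
      intro i _
      have : max (κ i) J ≤ 3 * J := max_le (hκ i) (by omega)
      rw [Nat.cast_add, Nat.cast_sub this]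
    rw [Finset.sum_congr rfl e3, Finset.sum_add_distrib, Finset.sum_sub_distrib, Finset.sum_const,
      Finset.sum_const, card_univ, Fintype.card_fin, nsmul_eq_mul, nsmul_eq_mul]
    push_cast
    ring
  rw [h7] at h6
  have h8 := h4.trans h6
  push_cast at h1 h8 ⊢
  have e4 : (m : ℝ) * (2 * J) * Real.log 2 = 2 * (m * J * Real.log 2) := by ring
  have e5 : (3 * ((m : ℝ) * J) - ∑ i, max (κ i : ℝ) J) * Real.log 2 =
      3 * (m * J * Real.log 2) - (∑ i, max (κ i : ℝ) J) * Real.log 2 := by ring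
  have e6 : ((∑ i, max (κ i : ℝ) J) - m * J) * Real.log 2 =
      (∑ i, max (κ i : ℝ) J) * Real.log 2 - m * J * Real.log 2 := by ring
  rw [e4] at h1
  rw [e5] at h8
  rw [e6]
  have h9 := h1.trans (h2.trans (add_le_add le_rfl (h3.trans h8)))
  linarith

end

end Pool.GAM
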