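import Pool.Agent.H64.PC.Full
import Pool.Agent.H69.NB.Vol

/-!
# The skeleton: rows along a chain of contexts, one step
-/

set_option autoImplicit false

namespace Pool.GAM

open Finset Real
open Pool.Agent.H49.Ent Pool.Agent.H32.Dense Pool.STK Pool.KA Pool.K2S Pool.KSAT
open Pool.PC (nfo)

/-- **Rows along a chain of contexts.** `β j`: the contexts, finer and finer; `ξ j`: the cells of
the position, `ξ j` is known given `β j` and `θ` up to `C`. -/
theorem row_chain {Ω S T Θ : Type} [Fintype Ω] {p : Ω → ℝ} (hp : ∀ ω, 0 ≤ p ω)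
    (β : ℕ → Ω → S) (ξ : ℕ → Ω → T) (θ : Ω → Θ) (r : ℕ → ℝ) {C : ℝ} :
    ∀ n : ℕ, (∀ j < n, Det p (β j) (β 0)) →
      (∀ j < n, Det p (fun ω => (ξ (j + 1) ω, (β 0 ω, θ ω))) (ξ j)) →
      (∀ j < n, CH p (ξ j) (fun ω => (β j ω, θ ω)) ≤ C) →
      (∀ j < n, r j ≤ CH p (ξ (j + 1)) (fun ω => (β j ω, θ ω))) →
      ∑ j ∈ range n, r j - n * C ≤ CH p (ξ n) (fun ω => (β 0 ω, θ ω)) := by
  intro n
  induction n with
  | zero =>
    intro _ _ _ _
    rw [Finset.range_zero, Finset.sum_empty, Nat.cast_zero, zero_mul, sub_zero]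
    exact CH_nonneg hp _ _
  | succ n ih =>
    intro h1 h2 h3 h4
    have hi := ih (fun j hj => h1 j (by omega)) (fun j hj => h2 j (by omega))
      (fun j hj => h3 j (by omega)) (fun j hj => h4 j (by omega))
    have hn : n < n + 1 := Nat.lt_succ_self n
    have e1 := CH_chain hp (ξ (n + 1)) (ξ n) (fun ω => (β 0 ω, θ ω))
    have e2 : CH p (fun ω => (ξ (n + 1) ω, ξ n ω)) (fun ω => (β 0 ω, θ ω)) =
        CH p (ξ (n + 1)) (fun ω => (β 0 ω, θ ω)) := by
      refine CH_congr hp ?_ ?_ (fun _ _ _ _ h => h) (fun _ _ _ _ h => h)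
      · intro ω ω' _ _ h
        exact (Prod.ext_iff.mp (Prod.ext_iff.mp h).1).1
      · intro ω ω' a b h
        have h5 := Prod.ext_iff.mp h
        exact Prod.ext h5.1 (h2 n hn ω ω' a b (Prod.ext h5.1 h5.2))
    have e3 : CH p (ξ (n + 1)) (fun ω => (ξ n ω, (β n ω, θ ω))) ≤
        CH p (ξ (n + 1)) (fun ω => (ξ n ω, (β 0 ω, θ ω))) := by
      refine CH_mono_cond hp fun ω ω' a b h => ?_
      simp only [Prod.mk.injEq] at h ⊢
      exact ⟨h.1, h1 n hn ω ω' a b h.2.1, h.2.2⟩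
    have e4 := CH_le_add hp (ξ (n + 1)) (ξ n) (fun ω => (β n ω, θ ω))
    have e5 := h3 n hn
    have e6 := h4 n hn
    rw [Finset.sum_range_succ]
    push_cast
    linarith

/-- **One step.** `β` is closed at the window `w`, `τ` determines the window `w'`; `ξ` is any
variable, for example the cell of the position at a time `θ` of the window `w'`. -/
theorem step_row {m J : ℕ} (F : Fam m J) {S T U Θ : Type} {w w' : ℕ} (hw : w ≤ w') (hw' : w' ≤ J)
    (β : F.Ω → S) (τ : F.Ω → U) (ξ : F.Ω → T) (θ : F.Ω → Θ) (h0 : Det F.p (slam F w) β)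
    (h0Z : Det F.p β F.Z) (hT : Det F.p τ (F.T1 w')) (hθ : Det F.p θ (F.T1 w')) :
    nfo F w β + CH F.p ξ (fun ω => (β ω, θ ω)) - CH F.p ξ (fun ω => (τ ω, θ ω)) ≤
      nfo F w' τ + CH F.p β τ := by
  have hp := F.isLaw.nonneg
  obtain ⟨X, rfl⟩ := Nat.exists_eq_add_of_le hw
  have h1 := Pool.PC.Full.nfo_step F hw' β τ θ h0 h0Z hT hθ
  have h2 : CH F.p β (fun ω => (τ ω, F.Z ω)) ≤ CH F.p β τ :=
    CH_mono_cond hp fun ω ω' a b h => (Prod.ext_iff.mp h).1
  have h3 := CH_le_add hp ξ τ (fun ω => (β ω, θ ω))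
  have h4 : CH F.p ξ (fun ω => (τ ω, (β ω, θ ω))) ≤ CH F.p ξ (fun ω => (τ ω, θ ω)) := by
    refine CH_mono_cond hp fun ω ω' _ _ h => ?_
    simp only [Prod.mk.injEq] at h ⊢
    exact ⟨h.1, h.2.2⟩
  linarith

end Pool.GAM
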