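import Pool.Agent.H69.GAM.Flat
import Pool.Agent.H85.TG.Defs2

/-!
# The skeleton: telescope, start and end
-/

set_option autoImplicit false

namespace Pool.GAM

open Finset Real
open Pool.Agent.H49.Ent Pool.Agent.H32.Dense Pool.STK Pool.KA Pool.K2S Pool.KSAT
open Pool.PC (nfo)
open Pool.NB (dot Fr ch_vol nat_le_two_pow)
open Pool.LK (Lbl)

variable {m J : ℕ}

/-! ### Nested labels -/

/-- The label of a window, given the label of a shorter window with a smaller box. -/
theorem lab_nest {F : Fam m J} {p : F.Ω → ℝ} (hp : IsLaw p) {w w' : ℕ} (hw : w ≤ w')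
    (hw' : w' ≤ J) {o o' : Equiv.Perm (Fin m)} {g M g' M' : F.Ω → Fin m → Fin m → ℝ}
    (hM : Cf p o g M) (hM' : Cf p o' g' M') (hMM : Det p M' M) {c c' : Fin m → ℕ} {n : ℕ}
    (hin : ∀ ω, 0 < p ω → ∀ v : Fin m → ℝ, (∀ i, |dot (g' ω i) v| ≤ 1 / 2 ^ c' i) →
      ∀ i, |dot (g ω i) v| ≤ 2 ^ n / 2 ^ c i) (q : ℕ) :
    CH p (lblc F w q c M) (lblc F w' q c' M') ≤ 2 * (m * ((n + 2 * m + 5 : ℕ) * Real.log 2)) := by
  obtain ⟨f, hf1, hf2, hf3⟩ := hM.fac
  obtain ⟨f', hf'1, hf'2, hf'3⟩ := hM'.fac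
  have key := Pool.NB.ch_lab_win hp (v := w) (v' := w') hw hw' (k := pc J w' q c')
    (c := fun i => c' i + q) (k' := pc J w q c) (c' := fun i => c i + q) (M := M') (M' := M)
    (D := 2 ^ (n + 2 * m + 2)) (by positivity)
    (fun ω hω x hx i => by
      have h1 := cap_incl (hM'.fr ω hω) (hM.fr ω hω) (hin ω hω) (q + w') J x (fun i => by
        have h2 := hx i
        rw [hf'3, mco_sm, abs_mul, abs_of_nonneg (by linarith [(hf'1 ω).1])] at h2
        have h3 : |mco (g' ω) x i| ≤ 1 / 2 ^ pc J w' q c' i := by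
          refine le_trans ?_ h2
          have := mul_le_mul_of_nonneg_right (hf'1 ω).1 (abs_nonneg (mco (g' ω) x i))
          linarith
        have e1 : min (c' i + (q + w')) J = pc J w' q c' i := by
          unfold pc
          rw [← add_assoc]
        rw [e1]
        exact h3) i
      rw [hf3, mco_sm, abs_mul, abs_of_nonneg (by linarith [(hf1 ω).1])]
      have h4 : |mco (g ω) x i| ≤ 2 ^ (n + 2 * m + 1) / 2 ^ pc J w q c i := by
        refine h1.trans (div_le_div_of_nonneg_left (by positivity) (by positivity)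
          (pow_le_pow_right₀ (by norm_num) ?_))
        unfold pc
        omega
      have h5 := mul_le_mul (hf1 ω).2 h4 (abs_nonneg _) (by norm_num)
      refine h5.trans (le_of_eq ?_)
      rw [show n + 2 * m + 2 = n + 2 * m + 1 + 1 by ring, pow_succ 2 (n + 2 * m + 1)]
      ring)
    (fun ω hω x hx i => by
      have h1 := hin ω hω (fun l => 2 ^ q * x l) (fun i => by
        have h2 := hx i
        rw [hf'3, mco_sm, abs_mul, abs_of_nonneg (by linarith [(hf'1 ω).1])] at h2
        have h3 : |mco (g' ω) x i| ≤ 1 / 2 ^ (c' i + q) := by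
          refine le_trans ?_ h2
          have := mul_le_mul_of_nonneg_right (hf'1 ω).1 (abs_nonneg (mco (g' ω) x i))
          linarith
        have e1 : dot (g' ω i) (fun l => 2 ^ q * x l) = 2 ^ q * mco (g' ω) x i := by
          unfold dot mco
          rw [Finset.mul_sum]
          exact Finset.sum_congr rfl fun l _ => by ring
        rw [e1, abs_mul, abs_of_pos (by positivity), le_div_iff₀ (by positivity)]
        rw [le_div_iff₀ (by positivity), pow_add] at h3
        linarith) i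
      have e1 : dot (g ω i) (fun l => 2 ^ q * x l) = 2 ^ q * mco (g ω) x i := by
        unfold dot mco
        rw [Finset.mul_sum]
        exact Finset.sum_congr rfl fun l _ => by ring
      rw [e1, abs_mul, abs_of_pos (by positivity), le_div_iff₀ (by positivity)] at h1
      rw [hf3, mco_sm, abs_mul, abs_of_nonneg (by linarith [(hf1 ω).1]), le_div_iff₀ (by positivity)]
      have h2 : |mco (g ω) x i| * 2 ^ (c i + q) ≤ 2 ^ n := by
        rw [pow_add]
        linarith
      have h3 := mul_le_mul (hf1 ω).2 h2 (by positivity) (by norm_num)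
      have h4 : (2 : ℝ) * 2 ^ n ≤ 2 ^ (n + 2 * m + 2) := by
        rw [← pow_succ']
        exact pow_le_pow_right₀ (by norm_num) (by omega)
      linarith)
    (fun i => min_le_left _ _) hMM
  refine key.trans ?_
  have h1 : Real.log (4 * 2 ^ (n + 2 * m + 2) + 3) ≤ (n + 2 * m + 5 : ℕ) * Real.log 2 := by
    rw [← Real.log_pow]
    refine Real.log_le_log (by positivity) ?_
    have h2 : (1 : ℝ) ≤ 2 ^ (n + 2 * m + 2) := one_le_pow₀ (by norm_num)
    rw [show n + 2 * m + 5 = n + 2 * m + 2 + 3 by ring, pow_add 2 (n + 2 * m + 2) 3]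
    norm_num
    linarith
  exact mul_le_mul_of_nonneg_left (mul_le_mul_of_nonneg_left h1 (Nat.cast_nonneg m)) (by norm_num)

/-! ### The end -/

theorem T1_top (F : Fam m J) (ω : F.Ω) : F.T1 J ω = F.T ω := by
  unfold Fam.T1
  rw [Nat.sub_self, pow_zero, Nat.div_one]

theorem T1_bot (F : Fam m J) (ω : F.Ω) : F.T1 0 ω = 0 := by
  unfold Fam.T1
  rw [Nat.sub_zero]
  exact Nat.div_eq_of_lt (F.tim ω)

/-- **The end.** -/
theorem nfo_end (F : Fam m J) {S : Type} (b : F.Ω → S) {P : ℝ}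
    (hP : CH F.p b (fun ω => ((F.X J ω, F.T ω), F.Z ω)) ≤ P) : nfo F J b ≤ F.Vf + P := by
  have hp := F.isLaw.nonneg
  have h1 := CH_le_add hp b (fun ω => (F.X J ω, F.T ω)) F.Z
  unfold nfo Fam.Vf
  have e1 : F.T1 J = F.T := funext fun ω => T1_top F ω
  rw [e1]
  linarith

/-- **The start.** -/
theorem nfo_start (F : Fam m J) {S : Type} (b : F.Ω → S) : nfo F 0 b = CH F.p b F.Z := by
  unfold nfo
  have h1 : CH F.p (F.T1 0) (fun ω => (F.l ω, F.Z ω)) = 0 :=
    CH_eq_zero F.isLaw.nonneg fun ω ω' _ _ _ => by rw [T1_bot, T1_bot]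
  rw [h1, sub_zero]

/-- The frame of a label, from a frame. -/
theorem fr_inv {o : Equiv.Perm (Fin m)} {g : Fin m → Fin m → ℝ} (hg : Fr o g) :
    ∃ B : Fin m → Fin m → ℝ, (∀ i j, |B i j| ≤ 2 ^ m) ∧
      ∀ i l, ∑ j, B i j * g j l = if i = l then 1 else 0 := by
  have hdet : (Matrix.of g).det ≠ 0 := by
    intro h0
    have := hg.det
    rw [h0, abs_zero] at this
    exact zero_ne_one this
  have hu : IsUnit (Matrix.of g).det := isUnit_iff_ne_zero.2 hdet
  obtain ⟨B, hB⟩ : ∃ B : Matrix (Fin m) (Fin m) ℝ, B = (Matrix.of g)⁻¹ := ⟨_, rfl⟩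
  have h1 : B * Matrix.of g = 1 := by rw [hB]; exact Matrix.nonsing_inv_mul _ hu
  have h2 : Matrix.of g * B = 1 := by rw [hB]; exact Matrix.mul_nonsing_inv _ hu
  refine ⟨B, fun i j => ?_, fun i l => ?_⟩
  · have h3 := hg.coord (v := fun l => B l j) zero_le_one (fun i => by
      have h4 := congrFun (congrFun h2 i) j
      rw [Matrix.mul_apply, Matrix.one_apply] at h4
      show |∑ l, g i l * B l j| ≤ 1
      have h5 : ∑ l, g i l * B l j = if i = j then 1 else 0 := h4
      rw [h5]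
      split_ifs
      · rw [abs_one]
      · rw [abs_zero]
        exact zero_le_one) i
    rwa [mul_one] at h3
  · have h4 := congrFun (congrFun h1 i) l
    rw [Matrix.mul_apply, Matrix.one_apply] at h4
    exact h4

open Classical in
/-- **The start**: the label of the window `0` gives a label of the line. -/
theorem lbl_start (F : Fam m J) {o : Equiv.Perm (Fin m)} {g M : F.Ω → Fin m → Fin m → ℝ}
    (hM : Cf F.p o g M) (q : ℕ) (c : Fin m → ℕ) {b : ℝ} (hb : 2 ^ m ≤ b) :
    ∃ L : Lbl F b, L.cost ≤ nfo F 0 (lblc F 0 q c M) +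
      ((m * J : ℕ) - (∑ i, pc J 0 q c i : ℕ) : ℝ) * Real.log 2 + 2 * (m * (3 * Real.log 2)) := by
  have hp := F.isLaw
  have h0 := hp.nonneg
  have hb1 : (1 : ℝ) ≤ b := le_trans (one_le_pow₀ (by norm_num)) hb
  obtain ⟨f, hf1, hf2, hf3⟩ := hM.fac
  obtain ⟨g₀, hg₀⟩ : ∃ g₀ : F.Ω → Fin m → Fin m → ℝ, g₀ = fun ω =>
      if 0 < F.p ω then g ω else fun i l => if i = l then 1 else 0 := ⟨_, rfl⟩
  have hpos : ∀ ω, 0 < F.p ω → g₀ ω = g ω := fun ω hω => by
    rw [hg₀]
    exact if_pos hω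
  have hneg : ∀ ω, ¬ 0 < F.p ω → g₀ ω = fun i l => if i = l then 1 else 0 := fun ω hω => by
    rw [hg₀]
    exact if_neg hω
  refine ⟨⟨fun _ => pc J 0 q c, g₀, fun ω i => min_le_right _ _, fun ω i j => ?_,
    fun ω => ?_⟩, ?_⟩
  · by_cases hω : 0 < F.p ω
    · rw [hpos ω hω]
      exact ((hM.fr ω hω).bd i j).trans hb1
    · rw [hneg ω hω]
      show |if i = j then (1 : ℝ) else 0| ≤ b
      split_ifs
      · rw [abs_one]; exact hb1
      · rw [abs_zero]; linarith
  · by_cases hω : 0 < F.p ω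
    · rw [hpos ω hω]
      obtain ⟨B, h1, h2⟩ := fr_inv (hM.fr ω hω)
      exact ⟨B, fun i j => (h1 i j).trans hb, h2⟩
    · rw [hneg ω hω]
      refine ⟨fun i l => if i = l then 1 else 0, fun i j => ?_, fun i l => ?_⟩
      · show |if i = j then (1 : ℝ) else 0| ≤ b
        split_ifs
        · rw [abs_one]; exact hb1
        · rw [abs_zero]; linarith
      · simp
  · rw [nfo_start]
    unfold Lbl.cost
    have hsum : (∑ ω, F.p ω * ∑ i, ((J : ℝ) - pc J 0 q c i)) =
        ((m * J : ℕ) - (∑ i, pc J 0 q c i : ℕ) : ℝ) := by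
      rw [← Finset.sum_mul, hp.sum_one, one_mul, Finset.sum_sub_distrib, Finset.sum_const,
        card_univ, Fintype.card_fin, nsmul_eq_mul]
      push_cast
      ring
    have hT : Det F.p (lblc F 0 q c M) M := fun ω ω' _ _ h => (Box.mlb_ext h).2.1
    have hcost : CH F.p (fun ω => ((pc J 0 q c, g₀ ω),
        (flk (pc J 0 q c) (mco (g₀ ω) (F.u ω)), flk (pc J 0 q c) (mco (g₀ ω) (F.d ω))))) F.Z ≤
        CH F.p (lblc F 0 q c M) F.Z + 2 * (m * (3 * Real.log 2)) := by
      have hflo : ∀ (x : F.Ω → Fin m → ℝ), (∀ ω ω', 0 < F.p ω → 0 < F.p ω' →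
          (lblc F 0 q c M ω, F.Z ω) = (lblc F 0 q c M ω', F.Z ω') → ∀ i,
          |mco (M ω) (x ω) i - mco (M ω) (x ω') i| ≤ 1 / 2 ^ pc J 0 q c i) →
          CH F.p (fun ω => flk (pc J 0 q c) (mco (g₀ ω) (x ω)))
            (fun ω => (lblc F 0 q c M ω, F.Z ω)) ≤ m * (3 * Real.log 2) := by
        intro x hx
        refine (Lab.CH_fin_const hp _ _ (c := 1 + 1) (fun ω ω' a b h i => ?_)).trans ?_
        · have h1 := hx ω ω' a b h i
          have h2 : M ω = M ω' := hT ω ω' a b (Prod.ext_iff.mp h).1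
          have h3 : g ω = g ω' := hM.det ω ω' a b h2
          unfold flk
          rw [hpos ω a, hpos ω' b, ← h3]
          refine Box.floor_near ?_
          rw [hf3, mco_sm, mco_sm, ← mul_sub, abs_mul, abs_of_nonneg (by linarith [(hf1 ω).1])]
            at h1
          refine le_trans ?_ h1
          have := mul_le_mul_of_nonneg_right (hf1 ω).1
            (abs_nonneg (mco (g ω) (x ω) i - mco (g ω) (x ω') i))
          linarith
        · refine mul_le_mul_of_nonneg_left ?_ (Nat.cast_nonneg m)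
          rw [show (3 : ℝ) * Real.log 2 = Real.log (2 ^ 3) by rw [Real.log_pow]; norm_num]
          exact Real.log_le_log (by norm_num) (by norm_num)
      have k1 := hflo F.u (fun ω ω' a b h i => by
        have h1 := (Prod.ext_iff.mp h).1
        have h2 := (Box.nr_of_mlb h1).1 i
        have e1 : ∀ o : F.Ω, F.xa ((F.T1 0 ω : ℝ) / 2 ^ 0) o = F.u o := by
          intro o
          rw [T1_bot]
          funext l
          unfold Fam.xa
          simp
        rw [e1, e1] at h2
        exact h2)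
      have k2 := hflo F.d (fun ω ω' a b h i => by
        have h1 := (Prod.ext_iff.mp h).1
        have h2 := (Box.nr_of_mlb h1).2 i
        refine h2.trans (one_div_le_one_div_of_le (by positivity)
          (pow_le_pow_right₀ (by norm_num) ?_))
        show min (c i + q + 0) J ≤ c i + q
        omega)
      have k3 := CH_le_add h0 (fun ω => ((pc J 0 q c, g₀ ω),
        (flk (pc J 0 q c) (mco (g₀ ω) (F.u ω)), flk (pc J 0 q c) (mco (g₀ ω) (F.d ω)))))
        (lblc F 0 q c M) F.Z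
      have k4 : CH F.p (fun ω => ((pc J 0 q c, g₀ ω),
          (flk (pc J 0 q c) (mco (g₀ ω) (F.u ω)), flk (pc J 0 q c) (mco (g₀ ω) (F.d ω)))))
          (fun ω => (lblc F 0 q c M ω, F.Z ω)) ≤
          CH F.p (fun ω => (flk (pc J 0 q c) (mco (g₀ ω) (F.u ω)),
            flk (pc J 0 q c) (mco (g₀ ω) (F.d ω)))) (fun ω => (lblc F 0 q c M ω, F.Z ω)) := by
        refine CH_mono_left h0 fun ω ω' a b h => ?_
        have h1 := Prod.ext_iff.mp h
        have h2 : M ω = M ω' := hT ω ω' a b (Prod.ext_iff.mp h1.2).1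
        have h3 : g₀ ω = g₀ ω' := by
          rw [hpos ω a, hpos ω' b]
          exact hM.det ω ω' a b h2
        exact Prod.ext (Prod.ext rfl h3) h1.1
      have k5 := CH_subadd h0 (fun ω => flk (pc J 0 q c) (mco (g₀ ω) (F.u ω)))
        (fun ω => flk (pc J 0 q c) (mco (g₀ ω) (F.d ω))) (fun ω => (lblc F 0 q c M ω, F.Z ω))
      linarith
    show CH F.p (fun ω => ((pc J 0 q c, g₀ ω),
        (flk (pc J 0 q c) (mco (g₀ ω) (F.u ω)), flk (pc J 0 q c) (mco (g₀ ω) (F.d ω))))) F.Z +
        (∑ ω, F.p ω * ∑ i, ((J : ℝ) - pc J 0 q c i)) * Real.log 2 ≤ _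
    rw [hsum]
    linarith

/-! ### The telescope -/

/-- **The telescope.** Labels at the windows `v 0 = 0, .., v n = J`. -/
theorem skel (F : Fam m J) (n : ℕ) (v : ℕ → ℕ) (hv0 : v 0 = 0) (hvn : v n = J) (q : ℕ)
    (c : ℕ → Fin m → ℕ) (M : ℕ → F.Ω → Fin m → Fin m → ℝ) (e : ℕ → ℝ)
    (hstep : ∀ i < n, nfo F (v i) (lblc F (v i) q (c i) (M i)) +
      ((∑ j, pc J (v (i + 1)) q (c (i + 1)) j : ℕ) - (∑ j, pc J (v i) q (c i) j : ℕ) : ℝ) *
        Real.log 2 - e i ≤ nfo F (v (i + 1)) (lblc F (v (i + 1)) q (c (i + 1)) (M (i + 1))))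
    {P : ℝ} (hP : CH F.p (lblc F J q (c n) (M n)) (fun ω => ((F.X J ω, F.T ω), F.Z ω)) ≤ P) :
    nfo F 0 (lblc F 0 q (c 0) (M 0)) +
      ((m * J : ℕ) - (∑ i, pc J 0 q (c 0) i : ℕ) : ℝ) * Real.log 2 ≤
      F.Vf + P + ∑ i ∈ range n, e i := by
  have key : ∀ k ≤ n, nfo F (v 0) (lblc F (v 0) q (c 0) (M 0)) +
      ((∑ j, pc J (v k) q (c k) j : ℕ) - (∑ j, pc J (v 0) q (c 0) j : ℕ) : ℝ) *
        Real.log 2 - ∑ i ∈ range k, e i ≤ nfo F (v k) (lblc F (v k) q (c k) (M k)) := by
    intro k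
    induction k with
    | zero =>
      intro _
      rw [Finset.range_zero, Finset.sum_empty, sub_self, zero_mul]
      linarith
    | succ k ih =>
      intro hk
      have h1 := ih (by omega)
      have h2 := hstep k (by omega)
      rw [Finset.sum_range_succ]
      have e1 : ((∑ j, pc J (v (k + 1)) q (c (k + 1)) j : ℕ) -
          (∑ j, pc J (v 0) q (c 0) j : ℕ) : ℝ) * Real.log 2 =
          ((∑ j, pc J (v k) q (c k) j : ℕ) - (∑ j, pc J (v 0) q (c 0) j : ℕ) : ℝ) * Real.log 2 +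
          ((∑ j, pc J (v (k + 1)) q (c (k + 1)) j : ℕ) - (∑ j, pc J (v k) q (c k) j : ℕ) : ℝ) *
            Real.log 2 := by ring
      rw [e1]
      linarith
  have h1 := key n le_rfl
  rw [hv0, hvn] at h1
  have h2 := nfo_end F (lblc F J q (c n) (M n)) hP
  have h3 : (∑ j, pc J J q (c n) j : ℕ) = m * J := by
    have : ∀ j ∈ (univ : Finset (Fin m)), pc J J q (c n) j = J := fun j _ =>
      min_eq_right (by omega)
    rw [Finset.sum_congr rfl this, Finset.sum_const, card_univ, Fintype.card_fin, smul_eq_mul]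
  rw [h3] at h1
  linarith

end Pool.GAM
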